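import Pool.Agent.Helper60.SP.Defs
import Pool.Agent.Helper60.IP.Count

/-!
# Pyramids with two shared tables: first lemmas
-/

set_option autoImplicit false

namespace Pool.Agent.Helper60.SP

open Pool.Agent.Helper6.IP

variable {n : ℕ} {A : Type} [AddCommGroup A] {N : ℕ}

/-! ## Nodes -/

theorem ch_true (v : ℕ × ℕ) : ch v true = (v.1 + 1, v.2) := rfl

theorem ch_false (v : ℕ × ℕ) : ch v false = (v.1, v.2 + 1) := rfl

theorem ch_sum (v : ℕ × ℕ) (s : Bool) : (ch v s).1 + (ch v s).2 = v.1 + v.2 + 1 := by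
  cases s <;> simp [ch] <;> omega

theorem ch_ne_root (v : ℕ × ℕ) (s : Bool) : ch v s ≠ (0, 0) := by
  intro h
  have h1 := ch_sum v s
  rw [h] at h1
  simp at h1

theorem ch_inj {u v : ℕ × ℕ} {s : Bool} (h : ch u s = ch v s) : u = v := by
  cases s <;> simp [ch, Prod.ext_iff] at h <;> exact Prod.ext (by omega) (by omega)

theorem ch_ne {v : ℕ × ℕ} {s t : Bool} (h : s ≠ t) : ch v s ≠ ch v t := by
  cases s <;> cases t <;> simp [ch] at h ⊢

theorem ch_nd {v : ℕ × ℕ} {s : Bool} (h : v.1 + v.2 < n) : IsNd n (ch v s) := by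
  unfold IsNd
  rw [ch_sum]
  omega

theorem ch_ne_self (v : ℕ × ℕ) (s : Bool) : ch v s ≠ v := by
  intro h
  have h1 := ch_sum v s
  rw [h] at h1
  omega

/-! ## Right cells and values -/

theorem rc_src {I : Cell n A → A} {v : ℕ × ℕ} (s : Bool) (h : v.1 + v.2 = n) :
    rc I v s = Sum.inr (Fin.ofNat (n + 1) v.2) := if_pos h

theorem rc_inner {I : Cell n A → A} {v : ℕ × ℕ} (s : Bool) (h : v.1 + v.2 < n) :
    rc I v s = Sum.inl (s, xv I (ch v s)) := if_neg h.ne

theorem xv_src {I : Cell n A → A} {v : ℕ × ℕ} (s : Bool) (h : v.1 + v.2 = n) :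
    xv I v = I (rc I v s) := by
  rw [rc_src s h]
  unfold xv
  rw [h, Nat.sub_self]
  rfl

theorem xv_inner {I : Cell n A → A} {v : ℕ × ℕ} (h : v.1 + v.2 < n) :
    xv I v = I (rc I v true) + I (rc I v false) := by
  rw [rc_inner true h, rc_inner false h]
  unfold xv
  obtain ⟨i, hi⟩ : ∃ i, n - (v.1 + v.2) = i + 1 := ⟨n - (v.1 + v.2) - 1, by omega⟩
  rw [hi, ch_sum, ch_sum]
  have h1 : n - (v.1 + v.2 + 1) = i := by omega
  rw [h1]
  rfl

theorem xv_root (I : Cell n A → A) : xv I (0, 0) = row I n 0 := by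
  unfold xv
  simp

theorem rc_src_inj {I I' : Cell n A → A} {u v : ℕ × ℕ} {s t : Bool} (hu : u.1 + u.2 = n)
    (hv : v.1 + v.2 = n) (h : rc I u s = rc I' v t) : u = v := by
  rw [rc_src s hu, rc_src t hv, Sum.inr.injEq] at h
  have h1 := congrArg Fin.val h
  simp only [Fin.ofNat, Fin.val_mk] at h1
  rw [Nat.mod_eq_of_lt (by omega), Nat.mod_eq_of_lt (by omega)] at h1
  exact Prod.ext (by omega) h1

theorem rc_src_ne {I I' : Cell n A → A} {u v : ℕ × ℕ} {s t : Bool} (hu : u.1 + u.2 = n)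
    (hv : v.1 + v.2 < n) : rc I u s ≠ rc I' v t := by
  rw [rc_src s hu, rc_inner t hv]
  exact fun h => absurd h (by simp)

/-- In a collision free instance different slots have different right cells. -/
theorem rc_inj {I : Cell n A → A} (hI : CF I) {u v : ℕ × ℕ} {s t : Bool} (hu : IsNd n u)
    (hv : IsNd n v) (h : rc I u s = rc I v t) : u = v ∧ (u.1 + u.2 < n → s = t) := by
  unfold IsNd at hu hv
  rcases Nat.lt_or_eq_of_le hu with hu' | hu'
  · rcases Nat.lt_or_eq_of_le hv with hv' | hv'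
    · rw [rc_inner s hu', rc_inner t hv', Sum.inl.injEq, Prod.mk.injEq] at h
      obtain ⟨h1, h2⟩ := h
      have h3 := hI _ _ (ch_nd hu') (ch_nd hv') (ch_ne_root _ _) (ch_ne_root _ _) h2
      rw [h1] at h3
      exact ⟨ch_inj h3, fun _ => h1⟩
    · exact absurd h.symm (rc_src_ne hv' hu')
  · rcases Nat.lt_or_eq_of_le hv with hv' | hv'
    · exact absurd h (rc_src_ne hu' hv')
    · exact ⟨rc_src_inj hu' hv' h, fun h' => absurd hu' h'.ne⟩

/-! ## Uses -/

theorem out_of_ne {I : Cell n A → A} {v : ℕ × ℕ} (hv : v ≠ (0, 0)) {w : Cell n A ⊕ A} :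
    w ∈ Out I v ↔ ∃ s, w = Sum.inl (Sum.inl (s, xv I v)) := by
  constructor
  · rintro (⟨-, h⟩ | ⟨h, -⟩)
    · exact h
    · exact absurd h hv
  · exact fun h => Or.inl ⟨hv, h⟩

theorem out_root {I : Cell n A → A} {w : Cell n A ⊕ A} :
    w ∈ Out I (0, 0) ↔ ∃ a, w = Sum.inr a := by
  constructor
  · rintro (⟨h, -⟩ | ⟨-, h⟩)
    · exact absurd rfl h
    · exact h
  · exact fun h => Or.inr ⟨rfl, h⟩

/-- The right cell of a slot of a node is not a use of the node. -/
theorem rc_notMem_out {I : Cell n A → A} (hI : CF I) {v : ℕ × ℕ} {s : Bool} (hv : IsNd n v) :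
    Sum.inl (rc I v s) ∉ Out I v := by
  rintro (⟨hne, t, h⟩ | ⟨-, a, h⟩)
  · rcases Nat.lt_or_eq_of_le hv with hv' | hv'
    · rw [rc_inner s hv', Sum.inl.injEq, Sum.inl.injEq, Prod.mk.injEq] at h
      exact ch_ne_self v s (hI _ _ (ch_nd hv') hv (ch_ne_root _ _) hne h.2)
    · rw [rc_src s hv'] at h
      exact absurd h (by simp)
  · exact absurd h (by simp)

end Pool.Agent.Helper60.SP
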