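import Pool.Agent.Helper60.SP.Half

/-!
# SP-LONG: the boundary walk goes around the end of every chain in the set

Plan: for `x = (a, b)` let `W x` be the number of `i < m` with `walk w i = ((a', b), 0)`, `a' ≥ a`,
minus the number of `i < m` with `walk w i = ((a', b), 2)`, `a' ≥ a + 1` (signed number of crossings
of the ray from `x` to the right).  (1) `W (0, 0) = 1`: by `sum_closed` for the indicator of
`{c | c.2 ≥ 1}` the number of all pairs `((a', 0), 0)` equals that of all pairs `((a', 0), 2)`, and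
`((0, 0), 2)` is the only one with `a' ≤ 0` (it occurs once, at `i = 0`).  (2) `W x = W (x + (1, 0))` if
`x, x + (1, 0) ∈ R`: the difference counts the pairs `(x, 0)` and `(x + (1, 0), 2)`, which are not
boundary pairs.  (3) `W x = W (x + (0, 1))` if `x, x + (0, 1) ∈ R`: `sum_closed` for the indicator of
`{c | c.2 = b + 1 ∧ a + 1 ≤ c.1}`; the pairs `(x, 1)` and `(x + (0, 1), 3)` do not occur.  (4) So
`W x = 1` at the end `x` of the chain, hence some pair `((a', b), 0)` with `a' ≥ a` occurs, and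
`a' = a` since `a' + b ≤ n = a + b`.  (5) Between `i = 0` (corner `hd = (0, 0)`) and this pair (corner
`tl = (a + 1, b)`), and from it (corner `(a + 1, b + 1)`) back to `walk w m` (corner `tl = (0, 1)`),
each step changes the corner by one unit: `2 n + 4 ≤ m`.
-/

set_option autoImplicit false

namespace Pool.Agent.Helper60.SP

/-- The points which are reached from the origin by steps up inside `R`. -/
inductive Chain (R : Finset (ℤ × ℤ)) : ℤ × ℤ → Prop
  | root : Chain R (0, 0)
  | right (x : ℤ × ℤ) : Chain R x → x + (1, 0) ∈ R → Chain R (x + (1, 0))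
  | up (x : ℤ × ℤ) : Chain R x → x + (0, 1) ∈ R → Chain R (x + (0, 1))

theorem contour_long (R : Finset (ℤ × ℤ)) (h0 : (0, 0) ∈ R) (n : ℕ)
    (hR : ∀ x ∈ R, 0 ≤ x.1 ∧ 0 ≤ x.2 ∧ x.1 + x.2 ≤ n) (w : ℕ → Fin 3) (m : ℕ) (hm : 0 < m)
    (hc : walk w m = walk w 0) (hinj : ∀ i < m, ∀ j < m, walk w i = walk w j → i = j)
    (hb : ∀ i, (walk w i).1 ∈ R ∧ (walk w i).1 + vec (walk w i).2 ∉ R)
    (x : ℤ × ℤ) (hx : Chain R x) (hxn : x.1 + x.2 = n) : 2 * n + 4 ≤ m := by
  sorry

end Pool.Agent.Helper60.SP
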