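import Pool.Agent.Helper60.SP.Half

/-!
# SP-OWN: the number of owners

Plan: the map `i ↦ (toNd (walk w i).1, decide ((walk w i).2 = 0))` is injective on the outgoing `i < m`
(the points have coordinates `≥ 0`), so `2 * (outs w m).card = m` by `outs_half`.  At most two elements
of `outs w m` have the same node; those with the node `(0, 0)` are counted separately.
-/

set_option autoImplicit false

namespace Pool.Agent.Helper60.SP

theorem owners_card (w : ℕ → Fin 3) (m : ℕ) (hc : walk w m = walk w 0)
    (hinj : ∀ i < m, ∀ j < m, walk w i = walk w j → i = j)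
    (hq : ∀ i < m, 0 ≤ (walk w i).1.1 ∧ 0 ≤ (walk w i).1.2) :
    m ≤ 4 * (owners w m).card + 2 * ((outs w m).filter (fun p => p.1 = (0, 0))).card := by
  sorry

end Pool.Agent.Helper60.SP
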