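import Pool.Agent.Helper60.SP.Basic

/-!
# SP-CLOSE: the moment when the last open path is closed

Plan: write `o_τ m = o (m + τ)`.  At `τ = L` the output is observed first, so both slots of the root are
blocked, nothing but the root is reached and `Cut` holds (`n ≥ 1`).  Take the least `τ` with
`Cut n (Blk (o_τ) I)`; `τ ≥ 1` by `h0`.  At `τ - 1` there is an open path.  Let `Op blk v` (inductive) mean: from
`v` a path of slots not in `blk` leads to a node of row `0` with a slot not in `blk`; a reached node of
row `0` with an unblocked slot gives `Op (0, 0)` (induction on `Reach`, backwards).  Claim, by induction on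
`Op (Blk (o_(τ-1)) I) v`: a node of row `0` is reached from `v` through slots which are not blocked at `τ`.
Step: `¬ Blk_(τ-1) v s` and `Op (ch v s)`; if `Blk_τ v s` then `o (τ - 1) = inl (rc I v s) = inl (inl (s, xv I
(ch v s)))` (`Held` at `τ` and not at `τ - 1`), which is a use of `ch v s ≠ root`; but some slot `t` of
`ch v s` is not blocked at `τ - 1`, so the observation `o (τ - 1)` would be `rc I (ch v s) t`, impossible by
`rc_notMem_out`.
-/

set_option autoImplicit false

namespace Pool.Agent.Helper60.SP

open Pool.Agent.Helper6.IP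

variable {n : ℕ} {A : Type} [AddCommGroup A]

theorem held_shift {W : Type} {o : ℕ → W} {S : Set W} {c : W} {k : ℕ}
    (h : Held (fun m => o (m + (k + 1))) S c) : Held (fun m => o (m + k)) S c ∨ o k = c := by
  by_cases hc : o k = c
  · exact Or.inr hc
  · obtain ⟨m, hm, hj⟩ := h
    refine Or.inl ⟨m + 1, ?_, fun j hj' => ?_⟩
    · have h1 : m + 1 + k = m + (k + 1) := by omega
      show o (m + 1 + k) ∈ S
      rw [h1]
      exact hm
    · rcases j with _ | j
      · show o (0 + k) ≠ c
        rw [zero_add]
        exact hc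
      · show o (j + 1 + k) ≠ c
        have h1 : j + 1 + k = j + (k + 1) := by omega
        rw [h1]
        exact hj j (by omega)

theorem reach_shift {o : ℕ → Cell n A ⊕ A} {I : Cell n A → A} (hI : CF I) {k : ℕ} {v : ℕ × ℕ}
    (h : Reach n (Blk (fun m => o (m + k)) I) v) :
    IsNd n v → (∃ s, ¬ Blk (fun m => o (m + k)) I v s) →
      Reach n (Blk (fun m => o (m + (k + 1))) I) v := by
  induction h with
  | root => exact fun _ _ => Reach.root
  | step u s hu hlt hns ih =>
    rintro hnd ⟨t, ht⟩
    refine Reach.step u s (ih hlt.le ⟨s, hns⟩) hlt fun hb => ?_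
    rcases held_shift hb with h1 | h1
    · exact hns h1
    · refine ht ⟨0, ?_, fun j hj => ?_⟩
      · show o (0 + k) ∈ Out I (ch u s)
        rw [zero_add, h1, rc_inner s hlt]
        exact (out_of_ne (ch_ne_root u s)).mpr ⟨s, rfl⟩
      · obtain rfl : j = 0 := by omega
        show o (0 + k) ≠ _
        intro h2
        refine rc_notMem_out (s := t) hI hnd ?_
        rw [← h2, zero_add, h1, rc_inner s hlt]
        exact (out_of_ne (ch_ne_root u s)).mpr ⟨s, rfl⟩

theorem exists_close (hn : 1 ≤ n) (o : ℕ → Cell n A ⊕ A) (I : Cell n A → A) (hI : CF I) (L : ℕ)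
    (hL : ∃ a, o L = Sum.inr a) (h0 : ¬ Cut n (Blk o I)) :
    ∃ τ ≤ L, Cut n (Blk (fun m => o (m + τ)) I) ∧
      ∃ v, Reach n (Blk (fun m => o (m + τ)) I) v ∧ v.1 + v.2 = n := by
  classical
  have hcut : Cut n (Blk (fun m => o (m + L)) I) := by
    obtain ⟨a, ha⟩ := hL
    have hb : ∀ s, Blk (fun m => o (m + L)) I (0, 0) s := by
      intro s
      refine ⟨0, ?_, fun j hj => ?_⟩
      · show o (0 + L) ∈ Out I (0, 0)
        rw [zero_add, ha]
        exact out_root.mpr ⟨a, rfl⟩
      · obtain rfl : j = 0 := by omega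
        show o (0 + L) ≠ _
        rw [zero_add, ha]
        exact Sum.inr_ne_inl
    have hr : ∀ v, Reach n (Blk (fun m => o (m + L)) I) v → v = (0, 0) := by
      intro v hv
      induction hv with
      | root => rfl
      | step u s _ _ hns ih =>
        rw [ih] at hns
        exact absurd (hb s) hns
    intro v hv hvn
    rw [hr v hv] at hvn
    simp at hvn
    omega
  have hex : ∃ τ, Cut n (Blk (fun m => o (m + τ)) I) := ⟨L, hcut⟩
  obtain ⟨k, hk⟩ : ∃ k, Nat.find hex = k + 1 := by
    rcases hf : Nat.find hex with _ | k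
    · exfalso
      have h1 := Nat.find_spec hex
      rw [hf] at h1
      exact h0 h1
    · exact ⟨k, rfl⟩
  have hspec := Nat.find_spec hex
  rw [hk] at hspec
  have hmin : ¬ Cut n (Blk (fun m => o (m + k)) I) := Nat.find_min hex (by omega)
  unfold Cut at hmin
  push Not at hmin
  obtain ⟨v, hv, hvn, s, hs⟩ := hmin
  refine ⟨k + 1, ?_, hspec, v, reach_shift hI hv hvn.le ⟨s, hs⟩, hvn⟩
  rw [← hk]
  exact Nat.find_min' hex hcut

end Pool.Agent.Helper60.SP
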