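import Pool.Agent.Helper60.SP.Basic

/-!
# SP-COLL: most instances are collision free

Plan: order the nodes by `(height, v.2)`, height = `n - (v.1 + v.2)` (row by row, from row `0` up).
If `I` is not collision free let `v` be the first node (not the root) whose value equals the value
of an earlier node `u`; the values of the nodes before `v` are different.  Erase the content of
`rc I v true`: the values of the nodes before `v` do not use this cell (for `w` before `v`, `w` not
in row `0`, `rc I w t = (t, xv (ch w t))`; `ch w t` and `ch v true` are before `v`, so `rc I w t =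
rc I v true` gives `ch w t = ch v true`, `t = true`, `w = v`), nor does `rc I v false`; so the
content is `xv I u` minus the other content.  For fixed `(u, v)` use `Helper60.IP.packing` with
`S I = {rc I v true}`, `M I = {0}`, `T = 1`, `m = 1`; at most `((n + 1) ^ 2) ^ 2` pairs.
-/

set_option autoImplicit false

namespace Pool.Agent.Helper60.SP

open Pool.Agent.Helper6.IP

variable {n : ℕ} {A : Type} [AddCommGroup A]

/-- the entry `(i, j)` comes before the entry `(i0, j0)` -/
private def bf (i j i0 j0 : ℕ) : Prop := i < i0 ∨ (i = i0 ∧ j < j0)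

/-- the erased cell -/
private def ce (I : Cell n A → A) (i0 j0 : ℕ) : Cell n A :=
  if i0 = 0 then Sum.inr (Fin.ofNat (n + 1) j0) else Sum.inl (true, row I (i0 - 1) j0)

/-- the entries before `(i0, j0)` are different -/
private def dis (I : Cell n A → A) (i0 j0 : ℕ) : Prop :=
  ∀ i j i' j', i + j ≤ n → i' + j' ≤ n → bf i j i0 j0 → bf i' j' i0 j0 →
    row I i j = row I i' j' → i = i' ∧ j = j'

private lemma ofNat_inj {j j' : ℕ} (hj : j ≤ n) (hj' : j' ≤ n)
    (h : (Fin.ofNat (n + 1) j) = Fin.ofNat (n + 1) j') : j = j' := by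
  have h1 := congrArg Fin.val h
  simp only [Fin.ofNat, Fin.val_mk] at h1
  rwa [Nat.mod_eq_of_lt (by omega), Nat.mod_eq_of_lt (by omega)] at h1

private lemma coll_inv {I K : Cell n A → A} {i0 j0 : ℕ} (h0 : i0 + j0 ≤ n) (hd : dis I i0 j0)
    (hK : ∀ c, c ≠ ce I i0 j0 → K c = I c) :
    ∀ i j, i + j ≤ n → bf i j i0 j0 → row K i j = row I i j := by
  intro i
  induction i with
  | zero =>
    intro j hj hb
    change K (Sum.inr (Fin.ofNat (n + 1) j)) = I (Sum.inr (Fin.ofNat (n + 1) j))
    apply hK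
    unfold ce
    split_ifs with hi
    · intro h
      have h1 := ofNat_inj (by omega) (by omega) (Sum.inr_injective h)
      rcases hb with hb | hb
      · omega
      · omega
    · exact fun h => absurd h (by simp)
  | succ i ih =>
    intro j hj hb
    have hi0 : i0 ≠ 0 := by
      rcases hb with hb | hb <;> omega
    have b1 : bf i j i0 j0 := by
      left
      rcases hb with hb | hb <;> omega
    have b2 : bf i (j + 1) i0 j0 := by
      left
      rcases hb with hb | hb <;> omega
    have b3 : bf (i0 - 1) j0 i0 j0 := by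
      left
      omega
    change K (Sum.inl (true, row K i j)) + K (Sum.inl (false, row K i (j + 1))) =
      I (Sum.inl (true, row I i j)) + I (Sum.inl (false, row I i (j + 1)))
    rw [ih j (by omega) b1, ih (j + 1) (by omega) b2, hK, hK]
    · unfold ce
      rw [if_neg hi0]
      exact fun h => absurd h (by simp)
    · unfold ce
      rw [if_neg hi0]
      intro h
      rw [Sum.inl.injEq, Prod.mk.injEq] at h
      have h1 := hd i j (i0 - 1) j0 (by omega) (by omega) b1 b3 h.2
      rcases hb with hb | hb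
      · omega
      · omega

private lemma coll_rec {I K : Cell n A → A} {i0 j0 i1 j1 : ℕ} (h0 : i0 + j0 ≤ n) (h1 : i1 + j1 ≤ n)
    (hb : bf i1 j1 i0 j0) (hd : dis I i0 j0) (hv : row I i1 j1 = row I i0 j0)
    (hK : ∀ c, c ≠ ce I i0 j0 → K c = I c) :
    ce K i0 j0 = ce I i0 j0 ∧ I (ce I i0 j0) =
      if i0 = 0 then row K i1 j1 else row K i1 j1 - K (Sum.inl (false, row K (i0 - 1) (j0 + 1))) := by
  have hinv := coll_inv h0 hd hK
  by_cases hi : i0 = 0
  · subst hi
    refine ⟨by unfold ce; rw [if_pos rfl, if_pos rfl], ?_⟩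
    rw [if_pos rfl, hinv i1 j1 h1 hb, hv]
    unfold ce
    rw [if_pos rfl]
    rfl
  · have b1 : bf (i0 - 1) j0 i0 j0 := by
      left
      omega
    have b2 : bf (i0 - 1) (j0 + 1) i0 j0 := by
      left
      omega
    refine ⟨by unfold ce; rw [if_neg hi, if_neg hi, hinv (i0 - 1) j0 (by omega) b1], ?_⟩
    rw [if_neg hi, hinv i1 j1 h1 hb, hv, hinv (i0 - 1) (j0 + 1) (by omega) b2, hK]
    · obtain ⟨l, hl⟩ : ∃ l, i0 = l + 1 := ⟨i0 - 1, by omega⟩
      subst hl
      unfold ce
      rw [if_neg hi, Nat.add_sub_cancel]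
      change _ = I (Sum.inl (true, row I l j0)) + I (Sum.inl (false, row I l (j0 + 1))) -
        I (Sum.inl (false, row I l (j0 + 1)))
      rw [add_sub_cancel_right]
    · unfold ce
      rw [if_neg hi]
      exact fun h => absurd h (by simp)

/-- the bad instances of a pair -/
private def bad (n : ℕ) (A : Type) [AddCommGroup A] (q : Fin (n + 1) × Fin (n + 1) × Fin (n + 1) × Fin (n + 1)) :
    Set (Cell n A → A) :=
  {I | q.1.val + q.2.1.val ≤ n ∧ q.2.2.1.val + q.2.2.2.val ≤ n ∧
    bf q.1.val q.2.1.val q.2.2.1.val q.2.2.2.val ∧ dis I q.2.2.1.val q.2.2.2.val ∧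
    row I q.1.val q.2.1.val = row I q.2.2.1.val q.2.2.2.val}

private lemma bad_card [Fintype A] (q : Fin (n + 1) × Fin (n + 1) × Fin (n + 1) × Fin (n + 1)) :
    Nat.card (bad n A q) * Fintype.card A ≤ Nat.card (Cell n A → A) := by
  have h := Pool.Agent.Helper60.IP.packing (bad n A q) (fun I => {ce I q.2.2.1.val q.2.2.2.val})
    (fun _ => {0}) 1 1 (fun I _ => Set.ncard_singleton _)
    (fun I _ => ⟨Set.ncard_singleton _, fun j hj => by
      rw [Set.mem_singleton_iff] at hj
      omega⟩) (by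
      intro I hI I' hI' K _ hK hK'
      obtain ⟨a1, a2, a3, a4, a5⟩ := hI
      obtain ⟨-, -, -, b4, b5⟩ := hI'
      have hK1 : ∀ c, c ≠ ce I q.2.2.1.val q.2.2.2.val → K c = I c := fun c hc => hK c hc
      have hK2 : ∀ c, c ≠ ce I' q.2.2.1.val q.2.2.2.val → K c = I' c := fun c hc => hK' c hc
      obtain ⟨r1, r2⟩ := coll_rec a2 a1 a3 a4 a5 hK1
      obtain ⟨s1, s2⟩ := coll_rec a2 a1 a3 b4 b5 hK2
      funext c
      by_cases hc : c = ce K q.2.2.1.val q.2.2.2.val
      · rw [hc]
        conv_lhs => rw [r1]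
        conv_rhs => rw [s1]
        rw [r2, s2]
      · rw [← hK1 c (by rw [← r1]; exact hc), ← hK2 c (by rw [← s1]; exact hc)])
  rw [pow_one, Nat.choose_self, one_mul, Nat.card_eq_fintype_card (α := A)] at h
  exact h

private lemma cover {I : Cell n A → A} (hI : ¬ CF I) : ∃ q, I ∈ bad n A q := by
  classical
  -- two equal values
  have h1 : ∃ c, ∃ i j, c = i * (n + 1) + j ∧ i + j ≤ n ∧ ∃ i1 j1, i1 + j1 ≤ n ∧ bf i1 j1 i j ∧
      row I i1 j1 = row I i j := by
    unfold CF at hI
    push Not at hI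
    obtain ⟨u, v, hu, hv, -, -, huv, hne⟩ := hI
    unfold IsNd at hu hv
    unfold xv at huv
    rcases lt_trichotomy (n - (u.1 + u.2)) (n - (v.1 + v.2)) with h | h | h
    · exact ⟨_, n - (v.1 + v.2), v.2, rfl, by omega, n - (u.1 + u.2), u.2, by omega, Or.inl h, huv⟩
    · rcases lt_trichotomy u.2 v.2 with h2 | h2 | h2
      · exact ⟨_, n - (v.1 + v.2), v.2, rfl, by omega, n - (u.1 + u.2), u.2, by omega,
          Or.inr ⟨h, h2⟩, huv⟩
      · exact absurd (Prod.ext (by omega) h2) hne
      · exact ⟨_, n - (u.1 + u.2), u.2, rfl, by omega, n - (v.1 + v.2), v.2, by omega,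
          Or.inr ⟨h.symm, h2⟩, huv.symm⟩
    · exact ⟨_, n - (u.1 + u.2), u.2, rfl, by omega, n - (v.1 + v.2), v.2, by omega, Or.inl h,
        huv.symm⟩
  obtain ⟨i0, j0, hc, h0, i1, j1, h2, hb, hv⟩ := Nat.find_spec h1
  have hmin := fun c (h : c < Nat.find h1) => Nat.find_min h1 h
  have hlt : ∀ i j, i + j ≤ n → bf i j i0 j0 → i * (n + 1) + j < Nat.find h1 := by
    intro i j hij hbf
    rw [hc]
    rcases hbf with h | ⟨h, h'⟩
    · have : (i + 1) * (n + 1) ≤ i0 * (n + 1) := Nat.mul_le_mul_right _ h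
      have h3 : (i + 1) * (n + 1) = i * (n + 1) + (n + 1) := by ring
      omega
    · rw [h]
      omega
  have hd : dis I i0 j0 := by
    intro i j i' j' hij hij' hbf hbf' hrow
    by_contra hne
    rcases lt_trichotomy i i' with h | h | h
    · exact hmin _ (hlt i' j' hij' hbf') ⟨i', j', rfl, hij', i, j, hij, Or.inl h, hrow⟩
    · rcases lt_trichotomy j j' with h' | h' | h'
      · exact hmin _ (hlt i' j' hij' hbf') ⟨i', j', rfl, hij', i, j, hij, Or.inr ⟨h, h'⟩, hrow⟩
      · exact hne ⟨h, h'⟩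
      · exact hmin _ (hlt i j hij hbf) ⟨i, j, rfl, hij, i', j', hij', Or.inr ⟨h.symm, h'⟩, hrow.symm⟩
    · exact hmin _ (hlt i j hij hbf) ⟨i, j, rfl, hij, i', j', hij', Or.inl h, hrow.symm⟩
  exact ⟨(⟨i1, by omega⟩, ⟨j1, by omega⟩, ⟨i0, by omega⟩, ⟨j0, by omega⟩), h2, h0, hb, hd, hv⟩

theorem coll_bound [Fintype A] : Nat.card {I : Cell n A → A // ¬ CF I} * Fintype.card A ≤
    (n + 1) ^ 4 * Nat.card (Cell n A → A) := by
  classical
  have hc : ∀ I : {I : Cell n A → A // ¬ CF I}, ∃ q, I.1 ∈ bad n A q := fun I => cover I.2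
  choose f hf using hc
  have h1 : Nat.card {I : Cell n A → A // ¬ CF I} ≤ Nat.card (Σ q, bad n A q) := by
    refine Nat.card_le_card_of_injective (fun I => ⟨f I, ⟨I.1, hf I⟩⟩) ?_
    intro I J hIJ
    exact Subtype.ext (congrArg (fun x : (Σ q, bad n A q) => x.2.1) hIJ)
  rw [Nat.card_sigma] at h1
  calc Nat.card {I : Cell n A → A // ¬ CF I} * Fintype.card A
      ≤ (∑ q, Nat.card (bad n A q)) * Fintype.card A := Nat.mul_le_mul_right _ h1
    _ = ∑ q, Nat.card (bad n A q) * Fintype.card A := Finset.sum_mul _ _ _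
    _ ≤ ∑ q : Fin (n + 1) × Fin (n + 1) × Fin (n + 1) × Fin (n + 1), Nat.card (Cell n A → A) :=
        Finset.sum_le_sum fun q _ => bad_card q
    _ = (n + 1) ^ 4 * Nat.card (Cell n A → A) := by
        rw [Finset.sum_const, Finset.card_univ, smul_eq_mul]
        simp only [Fintype.card_prod, Fintype.card_fin]
        ring

end Pool.Agent.Helper60.SP
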