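import Pool.Agent.Helper60.SP.Defs

/-!
# SP-CONT: the boundary walk of a finite set

Plan: for a pair `p = (x, d)` with `x ∈ R`, `x + vec d ∉ R` the next pair keeps `R` on the left: turn
`0` if `x + vec (d + 1) ∉ R`; else turn `1` if `x + vec d + vec (d + 1) ∉ R`; else turn `2`.  The new
pair is again a boundary pair, and the map is injective on the boundary pairs (the inverse rule is
the mirror image), a finite set; so the start `((0, 0), 2)` (a boundary pair, since `(-1, 0) ∉ R`) is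
periodic.  `m` = the minimal period, `w i` = the turn made at the `i`-th pair.
-/

set_option autoImplicit false

namespace Pool.Agent.Helper60.SP

private theorem cont_opp : ∀ d : Fin 4, vec (d + 1) + vec (d - 1) = 0 := by decide

private theorem cont_opp2 : ∀ d : Fin 4, vec (d + 2) = -vec d := by decide

/-- The turn at a boundary pair. -/
private noncomputable def ctn (R : Finset (ℤ × ℤ)) (p : (ℤ × ℤ) × Fin 4) : Fin 3 :=
  if p.1 + vec (p.2 + 1) ∉ R then 0 else if p.1 + vec p.2 + vec (p.2 + 1) ∉ R then 1 else 2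

/-- The next pair is a boundary pair. -/
private theorem cont_next {R : Finset (ℤ × ℤ)} {p : (ℤ × ℤ) × Fin 4} (h1 : p.1 ∈ R)
    (h2 : p.1 + vec p.2 ∉ R) :
    (turn (ctn R p) p).1 ∈ R ∧ (turn (ctn R p) p).1 + vec (turn (ctn R p) p).2 ∉ R := by
  unfold ctn
  by_cases h3 : p.1 + vec (p.2 + 1) ∈ R
  · rw [if_neg (not_not.2 h3)]
    by_cases h4 : p.1 + vec p.2 + vec (p.2 + 1) ∈ R
    · rw [if_neg (not_not.2 h4)]
      refine ⟨h4, ?_⟩
      show p.1 + vec p.2 + vec (p.2 + 1) + vec (p.2 - 1) ∉ R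
      rwa [add_assoc (p.1 + vec p.2), cont_opp, add_zero]
    · rw [if_pos h4]
      refine ⟨h3, ?_⟩
      show p.1 + vec (p.2 + 1) + vec p.2 ∉ R
      rwa [add_right_comm]
  · rw [if_pos h3]
    exact ⟨h1, h3⟩

/-- The previous pair: the mirror image of the rule. -/
private noncomputable def cpv (R : Finset (ℤ × ℤ)) (q : (ℤ × ℤ) × Fin 4) : (ℤ × ℤ) × Fin 4 :=
  if q.1 + vec (q.2 - 1) ∉ R then (q.1, q.2 - 1) else
    if q.1 + vec (q.2 - 1) + vec q.2 ∉ R then (q.1 + vec (q.2 - 1), q.2) else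
      (q.1 + vec (q.2 - 1) + vec q.2, q.2 + 1)

private theorem cont_prev {R : Finset (ℤ × ℤ)} {p : (ℤ × ℤ) × Fin 4} (h1 : p.1 ∈ R)
    (h2 : p.1 + vec p.2 ∉ R) : cpv R (turn (ctn R p) p) = p := by
  have e1 : p.1 + vec (p.2 + 1) + vec (p.2 - 1) = p.1 := by
    rw [add_assoc, cont_opp, add_zero]
  unfold ctn
  by_cases h3 : p.1 + vec (p.2 + 1) ∈ R
  · rw [if_neg (not_not.2 h3)]
    by_cases h4 : p.1 + vec p.2 + vec (p.2 + 1) ∈ R
    · rw [if_neg (not_not.2 h4)]
      show cpv R (p.1 + vec p.2 + vec (p.2 + 1), p.2 - 1) = p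
      have e2 : p.2 - 1 - 1 = p.2 + 2 := by
        have : ∀ d : Fin 4, d - 1 - 1 = d + 2 := by decide
        exact this _
      have e3 : p.1 + vec p.2 + vec (p.2 + 1) + vec (p.2 - 1 - 1) = p.1 + vec (p.2 + 1) := by
        rw [e2, cont_opp2]
        abel
      unfold cpv
      simp only
      rw [e3, if_neg (not_not.2 h3), e1, if_neg (not_not.2 h1), sub_add_cancel]
    · rw [if_pos h4]
      show cpv R (p.1 + vec (p.2 + 1), p.2) = p
      unfold cpv
      simp only
      rw [e1, if_neg (not_not.2 h1), if_pos h2]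
  · rw [if_pos h3]
    show cpv R (p.1, p.2 + 1) = p
    unfold cpv
    simp only [add_sub_cancel_right]
    rw [if_pos h2]

theorem contour (R : Finset (ℤ × ℤ)) (h0 : (0, 0) ∈ R) (hR : ∀ x ∈ R, 0 ≤ x.1 ∧ 0 ≤ x.2) :
    ∃ (w : ℕ → Fin 3) (m : ℕ), 0 < m ∧ walk w m = walk w 0 ∧
      (∀ i < m, ∀ j < m, walk w i = walk w j → i = j) ∧
      ∀ i, (walk w i).1 ∈ R ∧ (walk w i).1 + vec (walk w i).2 ∉ R := by
  classical
  let S : Set ((ℤ × ℤ) × Fin 4) := {p | p.1 ∈ R ∧ p.1 + vec p.2 ∉ R}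
  have hfin : Finite S := by
    refine (Set.Finite.subset (R ×ˢ (Finset.univ : Finset (Fin 4))).finite_toSet ?_).to_subtype
    intro p hp
    rw [Finset.mem_coe, Finset.mem_product]
    exact ⟨hp.1, Finset.mem_univ _⟩
  let f : S → S := fun p => ⟨turn (ctn R p.1) p.1, cont_next p.2.1 p.2.2⟩
  have hf : Function.Injective f := by
    intro p q h
    have h1 : turn (ctn R p.1) p.1 = turn (ctn R q.1) q.1 := congrArg Subtype.val h
    apply Subtype.ext
    rw [← cont_prev p.2.1 p.2.2, ← cont_prev q.2.1 q.2.2, h1]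
  have hs : (((0, 0), 2) : (ℤ × ℤ) × Fin 4) ∈ S := by
    refine ⟨h0, fun h => ?_⟩
    have := (hR _ h).1
    simp [vec] at this
  let s : S := ⟨_, hs⟩
  have hw : ∀ i, walk (fun i => ctn R (f^[i] s).1) i = (f^[i] s).1 := by
    intro i
    induction i with
    | zero => rfl
    | succ i ih =>
      rw [Function.iterate_succ_apply']
      show turn (ctn R (f^[i] s).1) (walk _ i) = _
      rw [ih]
  have hper := hf.mem_periodicPts s
  refine ⟨fun i => ctn R (f^[i] s).1, Function.minimalPeriod f s,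
    Function.minimalPeriod_pos_of_mem_periodicPts hper, ?_, fun i hi j hj h => ?_, fun i => ?_⟩
  · rw [hw, hw, Function.iterate_minimalPeriod]
    rfl
  · rw [hw, hw] at h
    exact Function.iterate_injOn_Iio_minimalPeriod hi hj (Subtype.ext h)
  · rw [hw]
    exact (f^[i] s).2

end Pool.Agent.Helper60.SP
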