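import Pool.Agent.Helper6.IP.Defs

/-!
# Pyramids with two shared tables: definitions

The programs (`BP`), their runs (`obs`, `Held`, `cnt`) are those of `Helper6.IP.Defs`.
-/

set_option autoImplicit false

namespace Pool.Agent.Helper60.SP

open Pool.Agent.Helper6.IP

/-- The input cells: the entries of two tables with arguments in `A` and the entries of the first
row. -/
abbrev Cell (n : ℕ) (A : Type) : Type := (Bool × A) ⊕ Fin (n + 1)

/-- The rows: row `0` is given (its entries `0, …, n`), and
`row (i + 1) j = f (row i j) + g (row i (j + 1))`, where `f` and `g` are the tables `true` and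
`false`. -/
def row {n : ℕ} {A : Type} [AddCommGroup A] (I : Cell n A → A) : ℕ → ℕ → A
  | 0, j => I (Sum.inr (Fin.ofNat (n + 1) j))
  | i + 1, j => I (Sum.inl (true, row I i j)) + I (Sum.inl (false, row I i (j + 1)))

variable {n : ℕ} {A : Type} [AddCommGroup A]

/-- The value of the node `v = (a, b)`, `a + b ≤ n`; the root is `(0, 0)`, the nodes with
`a + b = n` are the entries of row `0`. -/
def xv (I : Cell n A → A) (v : ℕ × ℕ) : A := row I (n - (v.1 + v.2)) v.2

/-- The two lower neighbours of a node. -/
def ch (v : ℕ × ℕ) (s : Bool) : ℕ × ℕ := if s then (v.1 + 1, v.2) else (v.1, v.2 + 1)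

/-- The right cell of the slot `s` of the node `v` (for the nodes of row `0` both slots have the
same right cell). -/
def rc (I : Cell n A → A) (v : ℕ × ℕ) (s : Bool) : Cell n A :=
  if v.1 + v.2 = n then Sum.inr (Fin.ofNat (n + 1) v.2) else Sum.inl (s, xv I (ch v s))

/-- The observations which use the value of the node `v`. -/
def Out (I : Cell n A → A) (v : ℕ × ℕ) : Set (Cell n A ⊕ A) :=
  {w | (v ≠ (0, 0) ∧ ∃ s, w = Sum.inl (Sum.inl (s, xv I v))) ∨ (v = (0, 0) ∧ ∃ a, w = Sum.inr a)}

/-- The slot is blocked: the value of the node is used before the right cell of the slot is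
observed. -/
def Blk (o : ℕ → Cell n A ⊕ A) (I : Cell n A → A) (v : ℕ × ℕ) (s : Bool) : Prop :=
  Held o (Out I v) (Sum.inl (rc I v s))

/-- `v` is a node. -/
def IsNd (n : ℕ) (v : ℕ × ℕ) : Prop := v.1 + v.2 ≤ n

/-- The values of the nodes other than the root are different. -/
def CF (I : Cell n A → A) : Prop := ∀ u v, IsNd n u → IsNd n v → u ≠ (0, 0) → v ≠ (0, 0) →
  xv I u = xv I v → u = v

/-- The nodes which are reached from the root through slots which are not in `blk`. -/
inductive Reach (n : ℕ) (blk : ℕ × ℕ → Bool → Prop) : ℕ × ℕ → Prop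
  | root : Reach n blk (0, 0)
  | step (v : ℕ × ℕ) (s : Bool) : Reach n blk v → v.1 + v.2 < n → ¬ blk v s → Reach n blk (ch v s)

/-- No path leads through unblocked slots from the root to an entry of row `0` which is not
blocked. -/
def Cut (n : ℕ) (blk : ℕ × ℕ → Bool → Prop) : Prop :=
  ∀ v, Reach n blk v → v.1 + v.2 = n → ∀ s, blk v s

/-! ## Words -/

/-- The four directions: `0` = first coordinate up, `1` = second coordinate up, `2`, `3` = down. -/
def vec : Fin 4 → ℤ × ℤ
  | 0 => (1, 0)
  | 1 => (0, 1)
  | 2 => (-1, 0)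
  | 3 => (0, -1)

/-- One step along the boundary of a set: left turn, straight, right turn. -/
def turn (t : Fin 3) (p : (ℤ × ℤ) × Fin 4) : (ℤ × ℤ) × Fin 4 :=
  match t with
  | 0 => (p.1, p.2 + 1)
  | 1 => (p.1 + vec (p.2 + 1), p.2)
  | 2 => (p.1 + vec p.2 + vec (p.2 + 1), p.2 - 1)

/-- The walk with the turns `w`, starting at the left side of the origin. -/
def walk (w : ℕ → Fin 3) : ℕ → (ℤ × ℤ) × Fin 4
  | 0 => ((0, 0), 2)
  | i + 1 => turn (w i) (walk w i)

/-- The node of a point. -/
def toNd (x : ℤ × ℤ) : ℕ × ℕ := (x.1.toNat, x.2.toNat)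

/-- The outgoing pairs of the first `m` steps of the walk: the slot `true` for the direction `0`,
`false` for the direction `1`. -/
def outs (w : ℕ → Fin 3) (m : ℕ) : Finset ((ℕ × ℕ) × Bool) :=
  ((Finset.range m).filter (fun i => (walk w i).2 = 0 ∨ (walk w i).2 = 1)).image
    (fun i => (toNd (walk w i).1, decide ((walk w i).2 = 0)))

/-- The owners of the outgoing pairs, without the root. -/
def owners (w : ℕ → Fin 3) (m : ℕ) : Finset (ℕ × ℕ) := ((outs w m).image Prod.fst).erase (0, 0)

end Pool.Agent.Helper60.SP
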