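import Pool.Agent.Helper60.SP.Defs

/-!
# SP-HALF: half of the steps of a closed walk go outwards

Plan: the pair `(x, d)`, `x = (a, b)`, is a step between two corners (the cell `x` is the unit square
with the corners `(a, b)`, …, `(a + 1, b + 1)`): `tl (x, 0) = (a + 1, b)`, `hd (x, 0) = (a + 1, b + 1)`;
`tl (x, 1) = (a + 1, b + 1)`, `hd (x, 1) = (a, b + 1)`; `tl (x, 2) = (a, b + 1)`, `hd (x, 2) = (a, b)`;
`tl (x, 3) = (a, b)`, `hd (x, 3) = (a + 1, b)`.  For every turn `hd p = tl (turn t p)`.  So in a closed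
walk the sum of `hd - tl` is `0`: the numbers of the directions `0` and `2` are equal, and those of
`1` and `3`.
-/

set_option autoImplicit false

namespace Pool.Agent.Helper60.SP

/-- First corner of the step. -/
def tl (p : (ℤ × ℤ) × Fin 4) : ℤ × ℤ :=
  match p.2 with
  | 0 => (p.1.1 + 1, p.1.2)
  | 1 => (p.1.1 + 1, p.1.2 + 1)
  | 2 => (p.1.1, p.1.2 + 1)
  | 3 => (p.1.1, p.1.2)

/-- Last corner of the step. -/
def hd (p : (ℤ × ℤ) × Fin 4) : ℤ × ℤ :=
  match p.2 with
  | 0 => (p.1.1 + 1, p.1.2 + 1)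
  | 1 => (p.1.1, p.1.2 + 1)
  | 2 => (p.1.1, p.1.2)
  | 3 => (p.1.1 + 1, p.1.2)

theorem tl_turn (t : Fin 3) (p : (ℤ × ℤ) × Fin 4) : tl (turn t p) = hd p := by
  obtain ⟨⟨a, b⟩, d⟩ := p
  have e : (-1 : Fin 4) = 3 := rfl
  fin_cases t <;> fin_cases d <;> simp [tl, hd, turn, vec, e]

/-- A function on the corners has sum `0` of its increments along a closed walk. -/
theorem sum_closed (w : ℕ → Fin 3) (m : ℕ) (h : walk w m = walk w 0) (F : ℤ × ℤ → ℤ) :
    ∑ i ∈ Finset.range m, (F (hd (walk w i)) - F (tl (walk w i))) = 0 := by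
  set f : ℕ → ℤ := fun j => F (tl (walk w j)) with hf
  have h1 : ∀ i, F (hd (walk w i)) - F (tl (walk w i)) = f (i + 1) - f i := by
    intro i
    have h2 : tl (walk w (i + 1)) = hd (walk w i) := tl_turn (w i) (walk w i)
    simp only [hf, h2]
  rw [Finset.sum_congr rfl fun i _ => h1 i, Finset.sum_range_sub f m]
  simp only [hf, h, sub_self]

theorem outs_half (w : ℕ → Fin 3) (m : ℕ) (h : walk w m = walk w 0) :
    2 * ((Finset.range m).filter (fun i => (walk w i).2 = 0 ∨ (walk w i).2 = 1)).card = m := by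
  have h1 := sum_closed w m h fun x => x.2 - x.1
  have h2 : ∀ p : (ℤ × ℤ) × Fin 4, ((hd p).2 - (hd p).1) - ((tl p).2 - (tl p).1) =
      2 * (if p.2 = 0 ∨ p.2 = 1 then 1 else 0) - 1 := by
    rintro ⟨⟨a, b⟩, d⟩
    fin_cases d <;> simp [tl, hd]
  rw [Finset.sum_congr rfl fun i _ => h2 (walk w i), Finset.sum_sub_distrib, ← Finset.mul_sum,
    Finset.sum_boole, Finset.sum_const, Finset.card_range, nsmul_eq_mul, mul_one] at h1
  have h3 : (2 : ℤ) * ((Finset.range m).filter
      (fun i => (walk w i).2 = 0 ∨ (walk w i).2 = 1)).card = m := sub_eq_zero.1 h1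
  exact_mod_cast h3

end Pool.Agent.Helper60.SP
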