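import Pool.Agent.Helper60.SP.Basic

/-!
# SP-ROOT: a right cell of the root is never queried

Plan: as `Helper58/IP/Root.lean`.  `Helper60.IP.packing` with `m = 1`, `T = p`: canonical slot `s` = `true` if
`rc I (0, 0) true` is never queried, else `false`; `S I = {rc I (0, 0) s}`; `M I = {rank of xv I (0, 0)}` in the
fibre of `φ` over the output (choose for each `y` an injection of `{x // φ x = y}` into the numbers `< p`).
Two instances `I, I'` which agree with `K` outside their erased cells: the run of `K` is the run of `I`
and of `I'` (`run_agree` in `Helper60/IP/Zero.lean`), so the outputs and the values of `φ` are the same;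
the values of the nodes other than the root do not use the erased cell (`rc_inj`), so they agree in
`I`, `K`, `I'`; hence the right cells of the root, the canonical slot, the erased cells agree; equal
rank gives `xv I (0, 0) = xv I' (0, 0)`, and the content is this minus the other content.
-/

set_option autoImplicit false

namespace Pool.Agent.Helper60.SP

open Pool.Agent.Helper6.IP

variable {n : ℕ} {A : Type} [AddCommGroup A] {N : ℕ}

theorem root_bound [Fintype A] (hn : 1 ≤ n) (B : BP (Cell n A) A N) (q : Fin N) (φ : A → A) (p : ℕ)
    (hφ : ∀ y, Nat.card {x // φ x = y} ≤ p) :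
    Nat.card {I : Cell n A → A // CF I ∧ (∃ L, obs B I q L = Sum.inr (φ (xv I (0, 0)))) ∧
      ∃ s, ∀ m, obs B I q m ≠ Sum.inl (rc I (0, 0) s)} * Fintype.card A ≤
      p * Nat.card (Cell n A → A) := by
  sorry

end Pool.Agent.Helper60.SP
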