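import Pool.Agent.Helper60.SP.Basic

/-!
# SP-SEC: the secrets lemma
-/

set_option autoImplicit false

namespace Pool.Agent.Helper60.SP

open Pool.Agent.Helper6.IP

variable {n : ℕ} {A : Type} [AddCommGroup A] {N : ℕ}

/-! ## Packing with codes -/

theorem packing2 {C A κ : Type} [Finite C] [Finite A] [Finite κ] (P : Set (C → A))
    (S : (C → A) → Set C) (m : ℕ) (spec : (C → A) → κ → Prop) (hspec : ∀ I ∈ P, ∃ c, spec I c)
    (hS : ∀ I ∈ P, (S I).ncard = m)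
    (hinj : ∀ I ∈ P, ∀ I' ∈ P, ∀ (c : κ) (K : C → A), spec I c → spec I' c →
      (∀ x, x ∉ S I → K x = I x) → (∀ x, x ∉ S I' → K x = I' x) → I = I') :
    Nat.card P * Nat.card A ^ m ≤ Nat.card κ * Nat.card (C → A) := by
  classical
  have : ∀ I : P, Finite (IP.Sib I.1 (S I.1)) := by
    intro I
    unfold IP.Sib
    infer_instance
  have : Fintype P := Fintype.ofFinite P
  have h1 : Nat.card P * Nat.card A ^ m ≤ Nat.card (Σ I : P, IP.Sib I.1 (S I.1)) := by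
    rw [Nat.card_sigma]
    calc Nat.card P * Nat.card A ^ m = ∑ I : P, Nat.card A ^ m := by
          rw [Finset.sum_const, Finset.card_univ, smul_eq_mul, Nat.card_eq_fintype_card]
      _ ≤ ∑ I : P, Nat.card (IP.Sib I.1 (S I.1)) := by
          refine Finset.sum_le_sum fun I _ => ?_
          have h2 := IP.card_sib I.1 (S I.1)
          rwa [hS I.1 I.2] at h2
  refine h1.trans ?_
  rw [← Nat.card_prod]
  choose code hcode using fun I : P => hspec I.1 I.2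
  refine Nat.card_le_card_of_injective
    (fun x : (Σ I : P, IP.Sib I.1 (S I.1)) => (code x.1, x.2.1)) ?_
  rintro ⟨I, K⟩ ⟨I', K'⟩ hxy
  have h4 : code I = code I' := congrArg Prod.fst hxy
  have h5 : K.1 = K'.1 := congrArg Prod.snd hxy
  have h7 : I = I' := by
    apply Subtype.ext
    refine hinj I.1 I.2 I'.1 I'.2 (code I) K.1 (hcode I) ?_ K.2 ?_
    · rw [h4]
      exact hcode I'
    · rw [h5]
      exact K'.2
  subst h7
  have h8 : K = K' := Subtype.ext h5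
  rw [h8]

/-! ## The overwritten cells -/

section ow

variable (Γ : Finset (ℕ × ℕ)) (s : ℕ × ℕ → Bool)

open Classical in
/-- The pairs whose cell is not the erased cell of a node of `Γ`. -/
noncomputable def Ys : Finset (Bool × (ℕ × ℕ)) :=
  (Finset.univ ×ˢ Γ).filter (fun y => ¬ ∃ w ∈ Γ, s w = y.1 ∧ ch w y.1 = y.2)

/-- The cell of the table `y.1` at the value of the node `y.2`. -/
def cellX (I : Cell n A → A) (y : Bool × (ℕ × ℕ)) : Cell n A := Sum.inl (y.1, xv I y.2)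

/-- The overwritten cells. -/
def Ow (I : Cell n A → A) : Set (Cell n A) :=
  cellX I '' (Ys Γ s : Set (Bool × (ℕ × ℕ))) ∪ (fun v => rc I v (s v)) '' (Γ : Set (ℕ × ℕ))

variable {Γ s}

theorem mem_Ys {y : Bool × (ℕ × ℕ)} :
    y ∈ Ys Γ s ↔ y.2 ∈ Γ ∧ ¬ ∃ w ∈ Γ, s w = y.1 ∧ ch w y.1 = y.2 := by
  simp [Ys]

theorem ow_ncard [Finite A] {I : Cell n A → A} (hI : CF I)
    (hΓ : ∀ v ∈ Γ, IsNd n v ∧ v ≠ (0, 0)) : (Ow Γ s I).ncard = (Ys Γ s).card + Γ.card := by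
  unfold Ow
  rw [Set.ncard_union_eq ?_ (Set.toFinite _) (Set.toFinite _), Set.InjOn.ncard_image,
    Set.InjOn.ncard_image, Set.ncard_coe_finset, Set.ncard_coe_finset]
  · intro u hu v hv huv
    exact (rc_inj hI (hΓ u hu).1 (hΓ v hv).1 huv).1
  · intro y hy z hz hyz
    have h1 := (mem_Ys.1 hy).1
    have h2 := (mem_Ys.1 hz).1
    have h3 : y.1 = z.1 ∧ xv I y.2 = xv I z.2 := by
      simpa [cellX] using hyz
    exact Prod.ext h3.1 (hI _ _ (hΓ _ h1).1 (hΓ _ h2).1 (hΓ _ h1).2 (hΓ _ h2).2 h3.2)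
  · rw [Set.disjoint_left]
    rintro c ⟨y, hy, rfl⟩ ⟨w, hw, hwy⟩
    have hwy : rc I w (s w) = cellX I y := hwy
    have hw' : w ∈ Γ := hw
    rcases Nat.lt_or_eq_of_le (hΓ w hw').1 with h1 | h1
    · rw [rc_inner _ h1] at hwy
      have h3 : s w = y.1 ∧ xv I (ch w (s w)) = xv I y.2 := by
        simpa [cellX] using hwy
      have h4 := (mem_Ys.1 hy)
      refine h4.2 ⟨w, hw', h3.1, ?_⟩
      rw [← h3.1]
      exact hI _ _ (ch_nd h1) (hΓ _ h4.1).1 (ch_ne_root _ _) (hΓ _ h4.1).2 h3.2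
    · rw [rc_src _ h1] at hwy
      exact absurd hwy (by simp [cellX])

/-- The right cell of an inner slot which is not overwritten. -/
theorem notMem_Ow {I : Cell n A → A} (hI : CF I) (hΓ : ∀ v ∈ Γ, IsNd n v ∧ v ≠ (0, 0))
    {w : ℕ × ℕ} {t : Bool} (hw : w.1 + w.2 < n) (h1 : ch w t ∉ Γ) (h2 : ¬ (w ∈ Γ ∧ s w = t)) :
    rc I w t ∉ Ow Γ s I := by
  rintro (⟨y, hy, hyw⟩ | ⟨v, hv, hvw⟩)
  · rw [rc_inner _ hw] at hyw
    have h3 : y.1 = t ∧ xv I y.2 = xv I (ch w t) := by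
      simpa [cellX] using hyw
    have h4 := (mem_Ys.1 hy).1
    have h5 := hI _ _ (hΓ _ h4).1 (ch_nd hw) (hΓ _ h4).2 (ch_ne_root _ _) h3.2
    rw [h5] at h4
    exact h1 h4
  · have hv' : v ∈ Γ := hv
    have hvw : rc I v (s v) = rc I w t := hvw
    obtain ⟨h3, h4⟩ := rc_inj hI (hΓ v hv').1 hw.le hvw
    subst h3
    exact h2 ⟨hv', h4 hw⟩

theorem notMem_Ow_src {I : Cell n A → A} (hΓ : ∀ v ∈ Γ, IsNd n v ∧ v ≠ (0, 0))
    {w : ℕ × ℕ} {t : Bool} (hw : w.1 + w.2 = n) (h1 : w ∉ Γ) : rc I w t ∉ Ow Γ s I := by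
  rintro (⟨y, hy, hyw⟩ | ⟨v, hv, hvw⟩)
  · rw [rc_src _ hw] at hyw
    exact absurd hyw (by simp [cellX])
  · have hv' : v ∈ Γ := hv
    have hvw : rc I v (s v) = rc I w t := hvw
    rcases Nat.lt_or_eq_of_le (hΓ v hv').1 with h2 | h2
    · exact rc_src_ne hw h2 hvw.symm
    · have h3 := rc_src_inj h2 hw hvw
      rw [h3] at hv'
      exact h1 hv'

end ow

/-! ## Two instances with the same code -/

section two

variable {Γ : Finset (ℕ × ℕ)} {s : ℕ × ℕ → Bool} {J J' K : Cell n A → A}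

/-- The situation: both instances are collision free and agree with `K` outside their overwritten
cells, and the contents at the values of the nodes of `Γ` agree. -/
structure Two (Γ : Finset (ℕ × ℕ)) (s : ℕ × ℕ → Bool) (J J' K : Cell n A → A) : Prop where
  nd : ∀ v ∈ Γ, IsNd n v ∧ v ≠ (0, 0)
  cf : CF J
  cf' : CF J'
  ag : ∀ c, c ∉ Ow Γ s J → K c = J c
  ag' : ∀ c, c ∉ Ow Γ s J' → K c = J' c
  rr : ∀ y ∈ Ys Γ s, J (cellX J y) = J' (cellX J' y)

theorem Two.symm (h : Two Γ s J J' K) : Two Γ s J' J K :=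
  ⟨h.nd, h.cf', h.cf, h.ag', h.ag, fun y hy => (h.rr y hy).symm⟩

/-- The contents of the slots which are not erased agree. -/
theorem Two.content (h : Two Γ s J J' K) {w : ℕ × ℕ} {t : Bool} (hw : w.1 + w.2 < n)
    (h1 : ch w t ∉ Γ → xv J (ch w t) = xv J' (ch w t)) (h2 : ¬ (w ∈ Γ ∧ s w = t)) :
    J (rc J w t) = J' (rc J' w t) := by
  by_cases h3 : ch w t ∈ Γ
  · have h4 : (t, ch w t) ∈ Ys Γ s := by
      rw [mem_Ys]
      refine ⟨h3, ?_⟩
      rintro ⟨w', hw', h5, h6⟩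
      have h7 := ch_inj h6
      rw [h7] at hw' h5
      exact h2 ⟨hw', h5⟩
    have h5 := h.rr _ h4
    rw [rc_inner _ hw, rc_inner _ hw]
    exact h5
  · have h4 : rc J w t = rc J' w t := by
      rw [rc_inner _ hw, rc_inner _ hw, h1 h3]
    rw [← h.ag _ (notMem_Ow h.cf h.nd hw h3 h2), ← h.ag' _ (notMem_Ow h.cf' h.nd hw h3 h2), h4]

/-- The values of the nodes outside `Γ` agree. -/
theorem Two.out (h : Two Γ s J J' K) : ∀ (r : ℕ) (u : ℕ × ℕ), n - (u.1 + u.2) < r → IsNd n u →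
    u ∉ Γ → xv J u = xv J' u := by
  intro r
  induction r with
  | zero => exact fun u hu => absurd hu (by omega)
  | succ r ih =>
    intro u hu hnd hΓ
    rcases Nat.lt_or_eq_of_le hnd with h1 | h1
    · rw [xv_inner h1, xv_inner h1]
      have h2 : ∀ t, J (rc J u t) = J' (rc J' u t) := by
        intro t
        refine h.content h1 (fun h3 => ih _ ?_ (ch_nd h1) h3) (fun h3 => hΓ h3.1)
        rw [ch_sum]
        omega
      rw [h2, h2]
    · rw [xv_src true h1, xv_src true h1, ← h.ag _ (notMem_Ow_src h.nd h1 hΓ),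
        ← h.ag' _ (notMem_Ow_src h.nd h1 hΓ), rc_src _ h1, rc_src _ h1]

theorem Two.out' (h : Two Γ s J J' K) {u : ℕ × ℕ} (hu : IsNd n u) (hΓ : u ∉ Γ) :
    xv J u = xv J' u := h.out (n - (u.1 + u.2) + 1) u (by omega) hu hΓ

/-- The content of the erased slot is determined by the value of the node. -/
theorem Two.erased (h : Two Γ s J J' K) {w : ℕ × ℕ} (hw : w ∈ Γ) (hv : xv J w = xv J' w) :
    J (rc J w (s w)) = J' (rc J' w (s w)) := by
  rcases Nat.lt_or_eq_of_le (h.nd w hw).1 with h1 | h1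
  · have h2 : J (rc J w (!s w)) = J' (rc J' w (!s w)) := by
      refine h.content h1 (fun h3 => h.out' (ch_nd h1) h3) (fun h3 => ?_)
      have h4 := h3.2
      cases h5 : s w <;> simp [h5] at h4
    rw [xv_inner h1, xv_inner h1] at hv
    cases h5 : s w
    · rw [h5] at h2
      simp only [Bool.not_false] at h2
      rw [h2] at hv
      exact add_left_cancel hv
    · rw [h5] at h2
      simp only [Bool.not_true] at h2
      rw [h2] at hv
      exact add_right_cancel hv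
  · have e1 := xv_src (I := J) (s w) h1
    have e2 := xv_src (I := J') (s w) h1
    rw [← e1, ← e2]
    exact hv

theorem Two.rc_eq (h : Two Γ s J J' K) {w : ℕ × ℕ} {t : Bool} (hw : IsNd n w)
    (h1 : w.1 + w.2 < n → ch w t ∈ Γ → xv J (ch w t) = xv J' (ch w t)) : rc J w t = rc J' w t := by
  rcases Nat.lt_or_eq_of_le hw with h2 | h2
  · rw [rc_inner _ h2, rc_inner _ h2]
    by_cases h3 : ch w t ∈ Γ
    · rw [h1 h2 h3]
    · rw [h.out' (ch_nd h2) h3]
  · rw [rc_src _ h2, rc_src _ h2]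

/-- The first use of the node `v` has the time `t`. -/
def FU (o : ℕ → Cell n A ⊕ A) (I : Cell n A → A) (v : ℕ × ℕ) (t : ℕ) : Prop :=
  o t ∈ Out I v ∧ ∀ j < t, o j ∉ Out I v

theorem fu_new {o : ℕ → Cell n A ⊕ A} {I : Cell n A → A} {v : ℕ × ℕ} {t : ℕ} (h : FU o I v t)
    {c : Cell n A} (hc : o t = Sum.inl c) : ∀ j < t, o j ≠ Sum.inl c := by
  intro j hj h1
  refine h.2 j hj ?_
  rw [h1, ← hc]
  exact h.1

/-- One direction of the step for the uses. -/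
theorem Two.use_step {o o' : ℕ → Cell n A ⊕ A} {v : ℕ × ℕ} (hv : v ≠ (0, 0)) {t : ℕ}
    (ho : ∀ j ≤ t, o j = o' j) (hst : ∀ j < t, o j ∈ Out J v → xv J v = xv J' v)
    (hcode : ∀ t₁, FU o J v t₁ → ∃ t₂, FU o' J' v t₂ ∧ cnt o' t₂ = cnt o t₁)
    (h : o t ∈ Out J v) : xv J v = xv J' v := by
  by_cases h1 : ∃ j < t, o j ∈ Out J v
  · obtain ⟨j, hj, hj'⟩ := h1
    exact hst j hj hj'
  · push Not at h1
    obtain ⟨t', ht', hcnt⟩ := hcode t ⟨h, h1⟩
    obtain ⟨b, hb⟩ := (out_of_ne hv).1 h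
    obtain ⟨b', hb'⟩ := (out_of_ne hv).1 ht'.1
    have h10 : cnt o t = cnt o' t := cnt_congr fun j hj => ho j hj.le
    have h2 : t' = t := by
      by_contra hne
      rcases Nat.lt_or_gt_of_ne hne with h8 | h8
      · have h9 : cnt o' t' < cnt o' t := cnt_lt h8 hb' (fu_new ht' hb')
        omega
      · have h9 : cnt o' t < cnt o' t' := cnt_lt h8 ((ho t le_rfl).symm.trans hb) fun j hj h' =>
          fu_new ⟨h, h1⟩ hb j hj ((ho j hj.le).trans h')
        omega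
    subst h2
    have h3 := (ho t' le_rfl)
    rw [hb, hb'] at h3
    simp only [Sum.inl.injEq, Prod.mk.injEq] at h3
    exact h3.2

/-- The contents of the observed cell agree. -/
theorem Two.answer (h : Two Γ s J J' K) {o : ℕ → Cell n A ⊕ A} {t : ℕ} {c : Cell n A}
    (hc : o t = Sum.inl c) (hst : ∀ v ∈ Γ, ∀ j < t + 1, o j ∈ Out J v → xv J v = xv J' v)
    (hb : ∀ v ∈ Γ, Blk o J v (s v)) (hcow : c ∈ Ow Γ s J) : J c = J' c := by
  rcases hcow with ⟨y, hy, rfl⟩ | ⟨w, hw, rfl⟩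
  · have h1 := (mem_Ys.1 hy).1
    have h2 : xv J y.2 = xv J' y.2 :=
      hst _ h1 t (by omega) ((out_of_ne (h.nd _ h1).2).2 ⟨y.1, hc⟩)
    rw [h.rr y hy]
    unfold cellX
    rw [h2]
  · have hw' : w ∈ Γ := hw
    have hc : o t = Sum.inl (rc J w (s w)) := hc
    obtain ⟨m, hm, hm'⟩ := hb w hw'
    have hmt : m < t := by
      by_contra hlt
      exact hm' t (by omega) hc
    have h1 := hst w hw' m (by omega) hm
    have h2 : rc J w (s w) = rc J' w (s w) := by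
      refine h.rc_eq (h.nd w hw').1 fun h3 h4 => hst _ h4 t (by omega) ?_
      rw [out_of_ne (ch_ne_root _ _), hc, rc_inner _ h3]
      exact ⟨_, rfl⟩
    show J (rc J w (s w)) = J' (rc J w (s w))
    rw [h.erased hw' h1, ← h2]

/-- The two runs agree, and the values of the used nodes agree. -/
theorem Two.lock (h : Two Γ s J J' K) (B : BP (Cell n A) A N) (q : Fin N)
    (hb : ∀ v ∈ Γ, Blk (obs B J q) J v (s v)) (hb' : ∀ v ∈ Γ, Blk (obs B J' q) J' v (s v))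
    (hcode : ∀ v ∈ Γ, ∀ t₁, FU (obs B J q) J v t₁ →
      ∃ t₂, FU (obs B J' q) J' v t₂ ∧ cnt (obs B J' q) t₂ = cnt (obs B J q) t₁)
    (hcode' : ∀ v ∈ Γ, ∀ t₁, FU (obs B J' q) J' v t₁ →
      ∃ t₂, FU (obs B J q) J v t₂ ∧ cnt (obs B J q) t₂ = cnt (obs B J' q) t₁) (t : ℕ) :
    (∀ j ≤ t, (B.step J)^[j] q = (B.step J')^[j] q) ∧
      (∀ v ∈ Γ, ∀ j < t, obs B J q j ∈ Out J v → xv J v = xv J' v) ∧
      (∀ v ∈ Γ, ∀ j < t, obs B J' q j ∈ Out J' v → xv J' v = xv J v) := by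
  induction t with
  | zero =>
    refine ⟨fun j hj => ?_, fun v _ j hj => absurd hj (by omega), fun v _ j hj => absurd hj (by omega)⟩
    obtain rfl : j = 0 := by omega
    rfl
  | succ t ih =>
    obtain ⟨h1, h2, h3⟩ := ih
    have ho : ∀ j ≤ t, obs B J q j = obs B J' q j := fun j hj => obs_congr (h1 j hj)
    have h4 : ∀ v ∈ Γ, ∀ j < t + 1, obs B J q j ∈ Out J v → xv J v = xv J' v := by
      intro v hv j hj hjv
      rcases Nat.lt_or_eq_of_le (Nat.lt_succ_iff.1 hj) with h5 | h5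
      · exact h2 v hv j h5 hjv
      · subst h5
        exact use_step (h.nd v hv).2 ho (h2 v hv) (hcode v hv) hjv
    have h5 : ∀ v ∈ Γ, ∀ j < t + 1, obs B J' q j ∈ Out J' v → xv J' v = xv J v := by
      intro v hv j hj hjv
      rcases Nat.lt_or_eq_of_le (Nat.lt_succ_iff.1 hj) with h6 | h6
      · exact h3 v hv j h6 hjv
      · subst h6
        exact use_step (h.nd v hv).2 (fun i hi => (ho i hi).symm) (h3 v hv) (hcode' v hv) hjv
    refine ⟨fun j hj => ?_, h4, h5⟩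
    rcases Nat.lt_or_eq_of_le hj with h6 | h6
    · exact h1 j (by omega)
    · subst h6
      refine run_succ (h1 t le_rfl) fun c hc => ?_
      by_cases h7 : c ∈ Ow Γ s J
      · exact h.answer hc h4 hb h7
      · by_cases h8 : c ∈ Ow Γ s J'
        · exact (h.symm.answer ((ho t le_rfl).symm.trans hc) h5 hb' h8).symm
        · rw [← h.ag c h7, ← h.ag' c h8]

/-- Two instances whose values agree are equal. -/
theorem Two.agree (h : Two Γ s J J' K) (hv : ∀ v ∈ Γ, xv J v = xv J' v) {c : Cell n A}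
    (hc : c ∈ Ow Γ s J) : J c = J' c := by
  rcases hc with ⟨y, hy, rfl⟩ | ⟨w, hw, rfl⟩
  · have h1 := (mem_Ys.1 hy).1
    rw [h.rr y hy]
    unfold cellX
    rw [hv _ h1]
  · have hw' : w ∈ Γ := hw
    have h2 : rc J w (s w) = rc J' w (s w) := h.rc_eq (h.nd w hw').1 fun _ h4 => hv _ h4
    show J (rc J w (s w)) = J' (rc J w (s w))
    rw [h.erased hw' (hv _ hw'), ← h2]

theorem Two.eq (h : Two Γ s J J' K) (hv : ∀ v ∈ Γ, xv J v = xv J' v) : J = J' := by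
  funext c
  by_cases h7 : c ∈ Ow Γ s J
  · exact h.agree hv h7
  · by_cases h8 : c ∈ Ow Γ s J'
    · exact (h.symm.agree (fun v hv' => (hv v hv').symm) h8).symm
    · rw [← h.ag c h7, ← h.ag' c h8]

end two

theorem fu_unique {o : ℕ → Cell n A ⊕ A} {I : Cell n A → A} {v : ℕ × ℕ} {t t' : ℕ}
    (h : FU o I v t) (h' : FU o I v t') : t = t' := by
  rcases lt_trichotomy t t' with h1 | h1 | h1
  · exact absurd h.1 (h'.2 t h1)
  · exact h1
  · exact absurd h'.1 (h.2 t' h1)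

theorem fu_exists {o : ℕ → Cell n A ⊕ A} {I : Cell n A → A} {v : ℕ × ℕ} {s : Bool}
    (h : Blk o I v s) : ∃ t, FU o I v t := by
  classical
  obtain ⟨m, hm, -⟩ := h
  have h1 : ∃ t, o t ∈ Out I v := ⟨m, hm⟩
  exact ⟨Nat.find h1, Nat.find_spec h1, fun j hj => Nat.find_min h1 hj⟩

theorem fu_lt [Finite A] {o : ℕ → Cell n A ⊕ A} {I : Cell n A → A} {v : ℕ × ℕ} {t : ℕ}
    (hv : v ≠ (0, 0)) (h : FU o I v t) : cnt o t < {c | ∃ j, o j = Sum.inl c}.ncard := by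
  obtain ⟨b, hb⟩ := (out_of_ne hv).1 h.1
  refine (cnt_lt (Nat.lt_succ_self t) hb (fu_new h hb)).trans_le ?_
  refine Set.ncard_le_ncard (fun c hc => ?_) (Set.toFinite _)
  obtain ⟨m, -, hm⟩ := hc
  exact ⟨m, hm⟩

theorem secrets [Fintype A] (B : BP (Cell n A) A N) (q : Fin N) (T : ℕ) (Γ : Finset (ℕ × ℕ))
    (s : ℕ × ℕ → Bool) (hΓ : ∀ v ∈ Γ, IsNd n v ∧ v ≠ (0, 0)) :
    Nat.card {I : Cell n A → A // CF I ∧ {c | ∃ j, obs B I q j = Sum.inl c}.ncard ≤ T ∧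
      ∀ v ∈ Γ, Blk (obs B I q) I v (s v)} * Fintype.card A ^ Γ.card ≤
      T ^ Γ.card * Nat.card (Cell n A → A) := by
  classical
  set P : Set (Cell n A → A) := {I | CF I ∧ {c | ∃ j, obs B I q j = Sum.inl c}.ncard ≤ T ∧
    ∀ v ∈ Γ, Blk (obs B I q) I v (s v)} with hP
  have h := packing2 (κ := (Γ → Fin T) × (Ys Γ s → A)) P (Ow Γ s) ((Ys Γ s).card + Γ.card)
    (fun I c => (∀ v : Γ, ∃ t, FU (obs B I q) I v.1 t ∧ cnt (obs B I q) t = (c.1 v).1) ∧
      ∀ y : Ys Γ s, c.2 y = I (cellX I y.1)) ?_ (fun I hI => ow_ncard hI.1 hΓ) ?_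
  · have h1 : Nat.card ((Γ → Fin T) × (Ys Γ s → A)) =
        T ^ Γ.card * Fintype.card A ^ (Ys Γ s).card := by
      rw [Nat.card_prod, Nat.card_fun, Nat.card_fun]
      simp
    rw [h1, Nat.card_eq_fintype_card (α := A), pow_add] at h
    have hA : 0 < Fintype.card A := Fintype.card_pos
    have h2 : Nat.card P * Fintype.card A ^ Γ.card * Fintype.card A ^ (Ys Γ s).card ≤
        T ^ Γ.card * Nat.card (Cell n A → A) * Fintype.card A ^ (Ys Γ s).card := by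
      calc _ = Nat.card P * (Fintype.card A ^ (Ys Γ s).card * Fintype.card A ^ Γ.card) := by ring
        _ ≤ _ := h
        _ = _ := by ring
    exact Nat.le_of_mul_le_mul_right h2 (pow_pos hA _)
  · rintro I ⟨hI, hT, hb⟩
    have h1 : ∀ v : Γ, ∃ f : Fin T, ∃ t, FU (obs B I q) I v.1 t ∧ cnt (obs B I q) t = f.1 := by
      intro v
      obtain ⟨t, ht⟩ := fu_exists (hb v.1 v.2)
      exact ⟨⟨cnt (obs B I q) t, (fu_lt (hΓ _ v.2).2 ht).trans_le hT⟩, t, ht, rfl⟩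
    choose f hf using h1
    exact ⟨(f, fun y => I (cellX I y.1)), hf, fun _ => rfl⟩
  · rintro J ⟨hJ, -, hb⟩ J' ⟨hJ', -, hb'⟩ c K ⟨hf, hr⟩ ⟨hf', hr'⟩ hK hK'
    have hT : Two Γ s J J' K :=
      ⟨hΓ, hJ, hJ', hK, hK', fun y hy => (hr ⟨y, hy⟩).symm.trans (hr' ⟨y, hy⟩)⟩
    have hc1 : ∀ v ∈ Γ, ∀ t₁, FU (obs B J q) J v t₁ →
        ∃ t₂, FU (obs B J' q) J' v t₂ ∧ cnt (obs B J' q) t₂ = cnt (obs B J q) t₁ := by
      intro v hv t₁ h1
      obtain ⟨t, ht, h2⟩ := hf ⟨v, hv⟩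
      obtain ⟨t', ht', h2'⟩ := hf' ⟨v, hv⟩
      obtain rfl := fu_unique h1 ht
      exact ⟨t', ht', h2'.trans h2.symm⟩
    have hc2 : ∀ v ∈ Γ, ∀ t₁, FU (obs B J' q) J' v t₁ →
        ∃ t₂, FU (obs B J q) J v t₂ ∧ cnt (obs B J q) t₂ = cnt (obs B J' q) t₁ := by
      intro v hv t₁ h1
      obtain ⟨t, ht, h2⟩ := hf ⟨v, hv⟩
      obtain ⟨t', ht', h2'⟩ := hf' ⟨v, hv⟩
      obtain rfl := fu_unique h1 ht'
      exact ⟨t, ht, h2.trans h2'.symm⟩
    refine hT.eq fun v hv => ?_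
    obtain ⟨m, hm, -⟩ := hb v hv
    exact (hT.lock B q hb hb' hc1 hc2 (m + 1)).2.1 v hv m (by omega) hm

end Pool.Agent.Helper60.SP
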