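import Pool.Agent.Helper60.SP.Word
import Pool.Agent.Helper60.SP.Sec

/-!
# SP-SUM: the sums over the words

Plan: `outs w m`, `owners w m` depend only on the turns `w 0, …, w (m - 2)`: at most `3 ^ (m - 1)` cases for
each `m` (take `w i = 0` for `i ≥ m - 1`).  For a fixed word the instances of the event are in the set
of `secrets` for `Γ = owners w m` and a choice `s v` with `(v, s v) ∈ outs w m`: at most
`(T / k) ^ g` of all instances for `g ≤ Γ.card` (`T ≤ k`).  (a) `g = max 2 ⌈m / 4⌉`: for each `g ≥ 2` the `m`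
with `⌈m / 4⌉ = g` (four values of `m`; only the even ones are needed but all four are fine, and `m ≤ 4`
counts for `g = 2`) have at most `3 ^ (4 g)` words in total; the sum is at most
`∑_{g ≥ 2} (81 T / k) ^ g ≤ 2 (81 T / k) ^ 2`, `81 T / k ≤ 81 / 1000`.  (b) `g = ⌈(m - 2) / 4⌉ ≥ (n + 1) / 2`, so
`g ≥ n / 2 + 1`; the `m` with `⌈(m - 2) / 4⌉ = g` have at most `3 ^ (4 g + 2)` words:
`9 ∑_{g ≥ n / 2 + 1} (81 T / k) ^ g ≤ 10 (81 T / k) ^ (n / 2 + 1)`.
-/

set_option autoImplicit false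

namespace Pool.Agent.Helper60.SP

open Pool.Agent.Helper6.IP

variable {n : ℕ} {A : Type} [AddCommGroup A] {N : ℕ}

theorem cut_open_bound [Fintype A] (hn : 1 ≤ n) (B : BP (Cell n A) A N) (q : Fin N) (T : ℕ)
    (hT : 1000 * T ≤ Fintype.card A) :
    (Nat.card {I : Cell n A → A // CF I ∧ {c | ∃ j, obs B I q j = Sum.inl c}.ncard ≤ T ∧
      (∀ s, ¬ Blk (obs B I q) I (0, 0) s) ∧ Cut n (Blk (obs B I q) I)} : ℝ) ≤
      2 * (81 * T / Fintype.card A) ^ 2 * Nat.card (Cell n A → A) := by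
  sorry

theorem cut_close_bound [Fintype A] (hn : 1 ≤ n) (B : BP (Cell n A) A N) (q : Fin N) (T : ℕ)
    (hT : 1000 * T ≤ Fintype.card A) :
    (Nat.card {I : Cell n A → A // CF I ∧ {c | ∃ j, obs B I q j = Sum.inl c}.ncard ≤ T ∧
      Cut n (Blk (obs B I q) I) ∧ ∃ v, Reach n (Blk (obs B I q) I) v ∧ v.1 + v.2 = n} : ℝ) ≤
      10 * (81 * T / Fintype.card A) ^ (n / 2 + 1) * Nat.card (Cell n A → A) := by
  sorry

end Pool.Agent.Helper60.SP
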