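import Pool.Agent.Helper60.SP.Coll
import Pool.Agent.Helper60.SP.Sum
import Pool.Agent.Helper60.SP.Close
import Pool.Agent.Helper60.SP.Root

/-!
# SP-MAIN: the bound

Plan: as `Helper1/IP/Main.lean`.  A good instance is (1) not collision free, or (2) in `root_bound`
(`q = B.start`), or (3) in `cut_open_bound` (`q = B.start`; all slots of the root are queried, hence not
blocked: the output is final), or (4) `exists_close` gives `τ`, and the instance is in `cut_close_bound` for
the state `q = (B.step I)^[τ] B.start` (`obs B I q m = obs B I B.start (m + τ)`; the cells observed from `q` are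
cells asked): sum over the `N` states.
-/

set_option autoImplicit false

namespace Pool.Agent.Helper60.SP

open Pool.Agent.Helper6.IP

variable {n : ℕ} {A : Type} [AddCommGroup A] {N : ℕ}

omit [AddCommGroup A] in
/-- An output is observed exactly in the final states. -/
private theorem see_inr' {C : Type} {B : BP C A N} {q : Fin N} {a : A} :
    see B q = Sum.inr a ↔ B.act q = Sum.inr a := by
  unfold see
  rcases B.act q with t | b
  · simp
  · simp

omit [AddCommGroup A] in
/-- A cell is observed exactly in the states which query it. -/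
private theorem see_inl' {C : Type} {B : BP C A N} {q : Fin N} {c : C} :
    see B q = Sum.inl c ↔ ∃ next : A → Fin N, B.act q = Sum.inl (c, next) := by
  unfold see
  rcases B.act q with t | b
  · constructor
    · intro h
      have h1 : t.1 = c := by simpa using h
      exact ⟨t.2, by rw [← h1]⟩
    · rintro ⟨next, h⟩
      have h1 : t = (c, next) := by simpa using h
      simp [h1]
  · constructor
    · intro h
      simp at h
    · rintro ⟨next, h⟩
      simp at h

omit [AddCommGroup A] in
/-- A final state is fixed by a step. -/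
private theorem step_final' {C : Type} {B : BP C A N} {I : C → A} {q : Fin N} {a : A}
    (h : B.act q = Sum.inr a) : B.step I q = q := by
  unfold BP.step
  rw [h]
  rfl

/-- After an output nothing else is observed. -/
private theorem obs_after' {C : Type} {B : BP C A N} {I : C → A} {q : Fin N} {m : ℕ} {a : A}
    (h : obs B I q m = Sum.inr a) {j : ℕ} (hj : m ≤ j) : obs B I q j = Sum.inr a := by
  have h1 : B.act ((B.step I)^[m] q) = Sum.inr a := see_inr'.1 h
  have h0 : B.step I ((B.step I)^[m] q) = (B.step I)^[m] q := step_final' h1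
  obtain ⟨i, rfl⟩ := Nat.exists_eq_add_of_le hj
  have h2 : (B.step I)^[m + i] q = (B.step I)^[m] q := by
    rw [Nat.add_comm, Function.iterate_add_apply]
    exact Function.iterate_fixed h0 i
  unfold obs
  rw [h2]
  exact see_inr'.2 h1

omit [AddCommGroup A] in
/-- The observations from a later time on. -/
private theorem obs_shift' {C : Type} (B : BP C A N) (I : C → A) (q : Fin N) (t : ℕ) :
    (fun m => obs B I q (m + t)) = obs B I ((B.step I)^[t] q) := by
  funext m
  unfold obs
  rw [Function.iterate_add_apply]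

private theorem outputs_iff' {C : Type} {B : BP C A N} {I : C → A} {a : A} :
    B.Outputs I a ↔ ∃ L, obs B I B.start L = Sum.inr a := by
  unfold BP.Outputs obs
  exact exists_congr fun m => see_inr'.symm

private theorem asks_iff' {C : Type} {B : BP C A N} {I : C → A} {c : C} :
    B.Asks I c ↔ ∃ m, obs B I B.start m = Sum.inl c := by
  unfold BP.Asks obs
  exact exists_congr fun m => see_inl'.symm

theorem main_bound [Fintype A] (hn : 1 ≤ n) (T p : ℕ) (hT : 1000 * T ≤ Fintype.card A)
    (B : BP (Cell n A) A N) (φ : A → A) (hφ : ∀ y, Nat.card {x // φ x = y} ≤ p) :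
    (Nat.card {I : Cell n A → A // B.Outputs I (φ (row I n 0)) ∧
      Nat.card {c // B.Asks I c} ≤ T} : ℝ) ≤
      ((p + (n + 1) ^ 4) / Fintype.card A + 2 * (81 * T / Fintype.card A) ^ 2 +
        10 * N * (81 * T / Fintype.card A) ^ (n / 2 + 1)) * Nat.card (Cell n A → A) := by
  classical
  set X : ℕ := Nat.card (Cell n A → A) with hX
  set k : ℕ := Fintype.card A with hk
  have hk0 : 0 < k := Fintype.card_pos_iff.2 ⟨0⟩
  set FG : Finset (Cell n A → A) := Finset.univ.filter fun I =>
    B.Outputs I (φ (row I n 0)) ∧ Nat.card {c // B.Asks I c} ≤ T with hFG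
  set FZ : Finset (Cell n A → A) := Finset.univ.filter fun I => ¬ CF I with hFZ
  set FD : Finset (Cell n A → A) := Finset.univ.filter fun I =>
    CF I ∧ (∃ L, obs B I B.start L = Sum.inr (φ (xv I (0, 0)))) ∧
      ∃ s, ∀ m, obs B I B.start m ≠ Sum.inl (rc I (0, 0) s) with hFD
  set FO : Finset (Cell n A → A) := Finset.univ.filter fun I =>
    CF I ∧ {c | ∃ j, obs B I B.start j = Sum.inl c}.ncard ≤ T ∧
      (∀ s, ¬ Blk (obs B I B.start) I (0, 0) s) ∧ Cut n (Blk (obs B I B.start) I) with hFO
  set FC : Fin N → Finset (Cell n A → A) := fun q => Finset.univ.filter fun I =>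
    CF I ∧ {c | ∃ j, obs B I q j = Sum.inl c}.ncard ≤ T ∧
      Cut n (Blk (obs B I q) I) ∧ ∃ v, Reach n (Blk (obs B I q) I) v ∧ v.1 + v.2 = n with hFC
  have card_sub : ∀ (P : (Cell n A → A) → Prop) [DecidablePred P],
      Nat.card {I // P I} = (Finset.univ.filter P).card := by
    intro P _
    rw [Nat.card_eq_fintype_card, Fintype.card_subtype]
  have hZ : FZ.card * k ≤ (n + 1) ^ 4 * X := by
    have := coll_bound (n := n) (A := A)
    rw [card_sub] at this
    exact this
  have hD : FD.card * k ≤ p * X := by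
    have := root_bound hn B B.start φ p hφ
    rw [card_sub] at this
    exact this
  have hO : (FO.card : ℝ) ≤ 2 * (81 * T / k) ^ 2 * X := by
    have := cut_open_bound hn B B.start T hT
    rw [card_sub] at this
    exact this
  have hC : ∀ q, ((FC q).card : ℝ) ≤ 10 * (81 * T / k) ^ (n / 2 + 1) * X := by
    intro q
    have := cut_close_bound hn B q T hT
    rw [card_sub] at this
    exact this
  have hcov : FG ⊆ FZ ∪ FD ∪ FO ∪ Finset.univ.biUnion FC := by
    intro I hI
    obtain ⟨hout, hask⟩ := (Finset.mem_filter.1 hI).2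
    rw [← xv_root] at hout
    obtain ⟨L, hL⟩ := outputs_iff'.1 hout
    have hset : {c | B.Asks I c} = {c | ∃ j, obs B I B.start j = Sum.inl c} := by
      ext c
      exact asks_iff'
    have hcells : {c | ∃ j, obs B I B.start j = Sum.inl c}.ncard ≤ T := by
      rw [← hset]
      exact hask
    by_cases h1 : CF I
    swap
    · exact Finset.mem_union_left _ (Finset.mem_union_left _ (Finset.mem_union_left _
        (Finset.mem_filter.2 ⟨Finset.mem_univ _, h1⟩)))
    by_cases h2 : ∃ s, ∀ m, obs B I B.start m ≠ Sum.inl (rc I (0, 0) s)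
    · exact Finset.mem_union_left _ (Finset.mem_union_left _ (Finset.mem_union_right _
        (Finset.mem_filter.2 ⟨Finset.mem_univ _, h1, ⟨L, hL⟩, h2⟩)))
    have h3 : ∀ s, ¬ Blk (obs B I B.start) I (0, 0) s := by
      rintro s ⟨m, hm, hm'⟩
      push Not at h2
      obtain ⟨m', hm2⟩ := h2 s
      have hlt : m < m' := by
        by_contra hc
        exact hm' m' (not_lt.1 hc) hm2
      obtain ⟨a, ha⟩ := out_root.1 hm
      have h4 := obs_after' ha hlt.le
      rw [hm2] at h4
      exact absurd h4 (by simp)
    by_cases h4 : Cut n (Blk (obs B I B.start) I)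
    · exact Finset.mem_union_left _ (Finset.mem_union_right _
        (Finset.mem_filter.2 ⟨Finset.mem_univ _, h1, hcells, h3, h4⟩))
    obtain ⟨τ, -, hτ⟩ := exists_close hn (obs B I B.start) I h1 L ⟨_, hL⟩ h4
    rw [obs_shift'] at hτ
    refine Finset.mem_union_right _ (Finset.mem_biUnion.2 ⟨(B.step I)^[τ] B.start,
      Finset.mem_univ _, Finset.mem_filter.2 ⟨Finset.mem_univ _, h1,
        le_trans (Set.ncard_le_ncard ?_ (Set.toFinite _)) hcells, hτ⟩⟩)
    rintro c ⟨j, hj⟩
    rw [← obs_shift'] at hj
    exact ⟨j + τ, hj⟩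
  have hsum : FG.card ≤ FZ.card + FD.card + FO.card + ∑ q, (FC q).card :=
    (Finset.card_le_card hcov).trans ((Finset.card_union_le _ _).trans
      (Nat.add_le_add ((Finset.card_union_le _ _).trans
        (Nat.add_le_add_right (Finset.card_union_le _ _) _)) Finset.card_biUnion_le))
  have hFGc : Nat.card {I : Cell n A → A // B.Outputs I (φ (row I n 0)) ∧
      Nat.card {c // B.Asks I c} ≤ T} = FG.card := card_sub _
  rw [hFGc]
  have hkR : (0 : ℝ) < k := by exact_mod_cast hk0
  have hZR : (FZ.card : ℝ) ≤ ((n : ℝ) + 1) ^ 4 / k * X := by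
    rw [div_mul_eq_mul_div, le_div_iff₀ hkR]
    exact_mod_cast hZ
  have hDR : (FD.card : ℝ) ≤ p / k * X := by
    rw [div_mul_eq_mul_div, le_div_iff₀ hkR]
    exact_mod_cast hD
  have hSR : (∑ q, ((FC q).card : ℝ)) ≤ N * (10 * (81 * T / k) ^ (n / 2 + 1) * X) := by
    calc (∑ q, ((FC q).card : ℝ)) ≤ ∑ _q : Fin N, (10 * (81 * T / k) ^ (n / 2 + 1) * X : ℝ) :=
          Finset.sum_le_sum fun q _ => hC q
      _ = N * (10 * (81 * T / k) ^ (n / 2 + 1) * X) := by simp
  have hsumR : (FG.card : ℝ) ≤ FZ.card + FD.card + FO.card + ∑ q, ((FC q).card : ℝ) := by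
    exact_mod_cast hsum
  calc (FG.card : ℝ) ≤ ((n : ℝ) + 1) ^ 4 / k * X + p / k * X + 2 * (81 * T / k) ^ 2 * X +
        N * (10 * (81 * T / k) ^ (n / 2 + 1) * X) := by linarith
    _ = ((p + ((n : ℝ) + 1) ^ 4) / k + 2 * (81 * T / k) ^ 2 +
        10 * N * (81 * T / k) ^ (n / 2 + 1)) * X := by ring

end Pool.Agent.Helper60.SP
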