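import Pool.Agent.Helper60.SP.Basic
import Pool.Agent.Helper18.IP.Push
import Pool.Agent.Helper6.IP.Pyr

/-!
# SP-UP: programs for the pyramid with shared tables

Plan: transfer from `Helper6.IP.pyr n` (separate tables).  `pi : (pyr n).Cell A → Cell n A`,
`inl w ↦ inr (Fin.ofNat (n + 1) w.1.1.2)`, `inr (e, z) ↦ inl (e.2, z)`.  For `I : Cell n A → A`:
`(pyr n).val (I ∘ pi) v = xv I (v.1.1, v.1.2)` (induction on `rk`), at the root `row I n 0`.  A program `P`
for `(pyr n).Cell A` becomes one for `Cell n A` by renaming the queried cells with `pi` (same states, same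
symbols); its run on `I` is the run of `P` on `I ∘ pi`, the asked cells are the images.
`|Src| + |E| = (n + 1) ^ 2` (`card_Src_pyr`, `card_E_pyr`).  `(pyr n).Cell A` has
`(n + 1) + n (n + 1) k ≤ (2 k + n + 1) ^ 3` elements.
-/

set_option autoImplicit false

namespace Pool.Agent.Helper60.SP

open Pool.Agent.Helper6.IP Pool.Agent.Helper18.IP

/-! ## Renaming -/

/-- Renaming of the queried cells. -/
def upAct {C C' A S Γ : Type} (π : C → C') : PAct C A S Γ → PAct C' A S Γ
  | .ask v nx => .ask (π v) nx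
  | .push g s => .push g s
  | .pop nx => .pop nx
  | .out a => .out a

/-- Renaming of the queried cells. -/
def upP {C C' A S Γ : Type} (π : C → C') (P : PBP C A S Γ) : PBP C' A S Γ where
  start := P.start
  act s := upAct π (P.act s)

theorem up_step {C C' A S Γ : Type} (π : C → C') (P : PBP C A S Γ) (I : C' → A)
    (c : S × List Γ) : (upP π P).step I c = P.step (I ∘ π) c := by
  unfold PBP.step
  show (match upAct π (P.act c.1) with
    | .ask v next => (next (I v), c.2)
    | .push g s => (s, g :: c.2)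
    | .pop next => match c.2 with
      | [] => c
      | g :: st => (next g, st)
    | .out _ => c) = _
  cases P.act c.1 <;> rfl

theorem up_conf {C C' A S Γ : Type} (π : C → C') (P : PBP C A S Γ) (I : C' → A) (m : ℕ) :
    (upP π P).conf I m = P.conf (I ∘ π) m := by
  unfold PBP.conf
  have h : (upP π P).step I = P.step (I ∘ π) := funext fun c => up_step π P I c
  rw [h]
  rfl

theorem up_outputs {C C' A S Γ : Type} (π : C → C') (P : PBP C A S Γ) (I : C' → A) (a : A)
    (h : P.Outputs (I ∘ π) a) : (upP π P).Outputs I a := by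
  obtain ⟨m, hm⟩ := h
  refine ⟨m, ?_⟩
  rw [up_conf]
  show upAct π (P.act _) = _
  rw [hm]
  rfl

theorem up_asks {C C' A S Γ : Type} (π : C → C') (P : PBP C A S Γ) (I : C' → A) (c : C')
    (h : (upP π P).Asks I c) : ∃ c₀, P.Asks (I ∘ π) c₀ ∧ π c₀ = c := by
  obtain ⟨m, nx, hm⟩ := h
  rw [up_conf] at hm
  have h1 : upAct π (P.act (P.conf (I ∘ π) m).1) = .ask c nx := hm
  cases h2 : P.act (P.conf (I ∘ π) m).1 with
  | ask v nx' =>
    rw [h2] at h1
    simp only [upAct, PAct.ask.injEq] at h1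
    exact ⟨v, ⟨m, nx', h2⟩, h1.1⟩
  | push g s => rw [h2] at h1; cases h1
  | pop nx' => rw [h2] at h1; cases h1
  | out a => rw [h2] at h1; cases h1

/-! ## The pyramid -/

/-- The cell of the shared tables. -/
def upPi (n : ℕ) (A : Type) : (pyr n).Cell A → Cell n A :=
  Sum.elim (fun w => Sum.inr (Fin.ofNat (n + 1) w.1.1.2.val)) (fun x => Sum.inl (x.1.2, x.2))

theorem up_val {n : ℕ} {A : Type} [AddCommGroup A] (I : Cell n A → A) : ∀ (m : ℕ) (v : (pyr n).V),
    n - (v.1.1.val + v.1.2.val) = m →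
      (pyr n).val (I ∘ upPi n A) v = xv I (v.1.1.val, v.1.2.val) := by
  intro m
  induction m with
  | zero =>
    intro v hv
    have hvn : v.1.1.val + v.1.2.val = n := by
      have := v.2
      omega
    have hsrc : ∀ e, (pyr n).head e ≠ v := by
      intro e he
      have h1 : e.1.1 = v.1 := congrArg Subtype.val he
      have h2 := e.1.2
      rw [h1] at h2
      omega
    rw [Dag.val, xv_src true (v := (v.1.1.val, v.1.2.val)) hvn,
      rc_src true (v := (v.1.1.val, v.1.2.val)) hvn]
    have h1 : IsEmpty {e : (pyr n).E // (pyr n).head e = v} := ⟨fun e => hsrc e.1 e.2⟩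
    rw [Finset.univ_eq_empty (α := {e : (pyr n).E // (pyr n).head e = v}), Finset.sum_empty,
      add_zero]
    let w₀ : {w : (pyr n).Src // w.1 = v} := ⟨⟨v, hsrc⟩, rfl⟩
    rw [Finset.sum_eq_single w₀]
    · rfl
    · rintro ⟨⟨w, hw⟩, hwv⟩ _ hne
      exact absurd (Subtype.ext (Subtype.ext hwv)) hne
    · exact fun h => absurd (Finset.mem_univ _) h
  | succ m ih =>
    intro v hv
    have hvn : v.1.1.val + v.1.2.val < n := by omega
    rw [Dag.val, xv_inner (v := (v.1.1.val, v.1.2.val)) hvn,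
      rc_inner true (v := (v.1.1.val, v.1.2.val)) hvn,
      rc_inner false (v := (v.1.1.val, v.1.2.val)) hvn]
    have h1 : IsEmpty {w : (pyr n).Src // w.1 = v} :=
      ⟨fun w => w.1.2 (⟨v.1, hvn⟩, true) (by rw [w.2]; rfl)⟩
    rw [Finset.univ_eq_empty (α := {w : (pyr n).Src // w.1 = v}), Finset.sum_empty, zero_add]
    let e₁ : {e : (pyr n).E // (pyr n).head e = v} := ⟨(⟨v.1, hvn⟩, true), rfl⟩
    let e₂ : {e : (pyr n).E // (pyr n).head e = v} := ⟨(⟨v.1, hvn⟩, false), rfl⟩
    have h12 : e₁ ≠ e₂ := by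
      intro h
      have h2 : true = false := congrArg (fun e => e.1.2) h
      exact absurd h2 (by decide)
    have huniv : (Finset.univ : Finset {e : (pyr n).E // (pyr n).head e = v}) = {e₁, e₂} := by
      ext e
      simp only [Finset.mem_univ, Finset.mem_insert, Finset.mem_singleton, true_iff]
      obtain ⟨⟨p, b⟩, he⟩ := e
      have h2 : p.1 = v.1 := congrArg Subtype.val he
      cases b
      · exact Or.inr (Subtype.ext (Prod.ext (Subtype.ext h2) rfl))
      · exact Or.inl (Subtype.ext (Prod.ext (Subtype.ext h2) rfl))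
    rw [huniv, Finset.sum_pair h12, ih ((pyr n).tail e₁.1), ih ((pyr n).tail e₂.1)]
    · rfl
    · show n - (v.1.1.val + (v.1.2.val + 1)) = m
      omega
    · show n - (v.1.1.val + 1 + v.1.2.val) = m
      omega

theorem push_up (n : ℕ) (hn : 1 ≤ n) (A : Type) [AddCommGroup A] [Fintype A]
    (hA : 2 ≤ Fintype.card A) :
    ∃ (S Γ : Type) (_ : Finite S) (_ : Finite Γ) (P : PBP (Cell n A) A S Γ),
      Nat.card S ≤ Nat.card (Cell n A) ^ 9 ∧ Nat.card Γ ≤ Nat.card (Cell n A) ^ 3 ∧
      ∀ I, P.Outputs I (row I n 0) ∧ Nat.card {c // P.Asks I c} ≤ (n + 1) ^ 2 := by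
  classical
  have hE : Fintype.card (pyr n).E = n * (n + 1) := by
    rw [← Nat.card_eq_fintype_card, card_E_pyr]
  have hS : Fintype.card (pyr n).Src = n + 1 := by
    rw [← Nat.card_eq_fintype_card, card_Src_pyr]
  obtain ⟨S, Γ, hS1, hΓ1, P, h1, h2, h3⟩ := pushdown_program (pyr n) A hA (by
    rw [hE]
    exact Nat.mul_pos (by omega) (by omega))
  have hcell : Nat.card ((pyr n).Cell A) ≤ Nat.card (Cell n A) ^ 3 := by
    have e1 : Nat.card ((pyr n).Cell A) = (n + 1) + n * (n + 1) * Fintype.card A := by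
      rw [Nat.card_eq_fintype_card, Fintype.card_sum, Fintype.card_prod, hE, hS]
    have e2 : Nat.card (Cell n A) = 2 * Fintype.card A + (n + 1) := by
      rw [Nat.card_eq_fintype_card, Fintype.card_sum, Fintype.card_prod, Fintype.card_bool,
        Fintype.card_fin]
    rw [e1, e2]
    generalize Fintype.card A = k at hA
    have hM1 : n + 1 ≤ 2 * k + (n + 1) := by omega
    have hM2 : k ≤ 2 * k + (n + 1) := by omega
    calc (n + 1) + n * (n + 1) * k ≤ (n + 1) * k + n * (n + 1) * k := by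
          have : (n + 1) * 1 ≤ (n + 1) * k := Nat.mul_le_mul_left _ (by omega)
          omega
      _ = (n + 1) * (n + 1) * k := by ring
      _ ≤ (2 * k + (n + 1)) * (2 * k + (n + 1)) * (2 * k + (n + 1)) :=
          Nat.mul_le_mul (Nat.mul_le_mul hM1 hM1) hM2
      _ = (2 * k + (n + 1)) ^ 3 := by ring
  refine ⟨S, Γ, hS1, hΓ1, upP (upPi n A) P, ?_, h2.trans hcell, fun I => ⟨?_, ?_⟩⟩
  · calc Nat.card S ≤ Nat.card ((pyr n).Cell A) ^ 3 := h1
      _ ≤ (Nat.card (Cell n A) ^ 3) ^ 3 := Nat.pow_le_pow_left hcell 3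
      _ = Nat.card (Cell n A) ^ 9 := by rw [← pow_mul]
  · refine up_outputs _ _ _ _ ?_
    have h4 := (h3 (I ∘ upPi n A)).1
    have h5 : (pyr n).val (I ∘ upPi n A) (pyr n).root = row I n 0 := by
      rw [up_val I _ (pyr n).root rfl, ← xv_root]
      rfl
    rwa [h5] at h4
  · have h4 := (h3 (I ∘ upPi n A)).2
    rw [hE, hS] at h4
    have h5 : ∀ c : {c // (upP (upPi n A) P).Asks I c}, ∃ c₀ : {c // P.Asks (I ∘ upPi n A) c},
        upPi n A c₀.1 = c.1 := by
      rintro ⟨c, hc⟩
      obtain ⟨c₀, h6, h7⟩ := up_asks _ _ _ _ hc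
      exact ⟨⟨c₀, h6⟩, h7⟩
    choose f hf using h5
    have hinj : Function.Injective f := fun c c' h => Subtype.ext (by rw [← hf c, ← hf c', h])
    calc Nat.card {c // (upP (upPi n A) P).Asks I c} ≤ Nat.card {c // P.Asks (I ∘ upPi n A) c} :=
          Nat.card_le_card_of_injective f hinj
      _ ≤ (n + 1) + n * (n + 1) := h4
      _ = (n + 1) ^ 2 := by ring

end Pool.Agent.Helper60.SP
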