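import Pool.Agent.Helper60.SP.Cont
import Pool.Agent.Helper60.SP.Long
import Pool.Agent.Helper60.SP.Own

/-!
# SP-WORD: a cut gives a word

Plan: `R` = the points `((v.1 : ℤ), (v.2 : ℤ))` of the nodes `v` with `Reach n blk v`; all have
`v.1 + v.2 ≤ n`.  Apply `contour`.  An outgoing pair `(x, 0)` (resp. `(x, 1)`) of the walk has
`v = toNd x` reached and `ch v true` (resp. `ch v false`) not reached, so `blk v true` (resp. `false`): by
`Reach.step` if `v.1 + v.2 < n`, by `Cut` if `v.1 + v.2 = n`.  `m ≤ 4 (n + 1) ^ 2` since the pairs are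
different.  (a) Both slots of the root are not blocked: `(1, 0), (0, 1) ∈ R`; no pair of `outs w m` has the
node `(0, 0)`, so `m ≤ 4 * owners.card` by `owners_card`.  Two owners: `walk w 0 = ((0, 0), 2)`; `sum_closed` for
`F c = if 1 ≤ c.2 then 1 else 0` says that the numbers of the pairs `((a, 0), 0)` and `((a, 0), 2)` are equal,
so some `((a, 0), 0)` occurs, `a ≥ 1`; `walk w 1 = ((0, 0), 3)` (the only turn into `R`), and `sum_closed` for
`F c = if 1 ≤ c.1 then 1 else 0` gives a pair `((0, b), 1)`, `b ≥ 1`.  (b) Some node of row `0` is reached: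
`contour_long` (`Reach` gives `Chain`), and at least one slot of the root is not blocked and its
lower neighbour is reached (`n ≥ 1`), so at most one element of `outs w m` has the node `(0, 0)`.
-/

set_option autoImplicit false

namespace Pool.Agent.Helper60.SP

variable {n : ℕ}

theorem word_open (hn : 1 ≤ n) (blk : ℕ × ℕ → Bool → Prop) (hcut : Cut n blk)
    (h0 : ∀ s, ¬ blk (0, 0) s) : ∃ (w : ℕ → Fin 3) (m : ℕ), m ≤ 4 * (n + 1) ^ 2 ∧
      m ≤ 4 * (owners w m).card ∧ 2 ≤ (owners w m).card ∧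
      (∀ v ∈ owners w m, IsNd n v ∧ v ≠ (0, 0)) ∧ ∀ p ∈ outs w m, blk p.1 p.2 := by
  sorry

theorem word_close (hn : 1 ≤ n) (blk : ℕ × ℕ → Bool → Prop) (hcut : Cut n blk)
    (h0 : ∃ v, Reach n blk v ∧ v.1 + v.2 = n) : ∃ (w : ℕ → Fin 3) (m : ℕ), 2 * n + 4 ≤ m ∧
      m ≤ 4 * (n + 1) ^ 2 ∧ m ≤ 4 * (owners w m).card + 2 ∧
      (∀ v ∈ owners w m, IsNd n v ∧ v ≠ (0, 0)) ∧ ∀ p ∈ outs w m, blk p.1 p.2 := by
  sorry

end Pool.Agent.Helper60.SP
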